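import Pool.Agent.Lib_MP_9e7d46_ts.Three

/-!
# Graph certificates

The sources `w i` (`i : I`) with a graph on `I` (edges `j : J`, ends `e1 j`, `e2 j`) such that for every
vertex `v` the set of the sources below `v` is connected, and extra nodes `PP` (faces, cycles) with
`Hp j : Finset PP`.
-/

set_option autoImplicit false
set_option linter.unusedSectionVars false

namespace TS9e
open Finset Classical OS9e

/-- labels: a graph with `m` edges on `n` vertices has at least `n - m` components -/
theorem labels {I : Type} [Fintype I] (S : Finset (I × I)) :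
    ∃ (L : Type) (_ : Fintype L) (κ : I → L), Function.Surjective κ ∧
      (∀ p ∈ S, κ p.1 = κ p.2) ∧ Fintype.card I ≤ Fintype.card L + #S := by
  induction S using Finset.induction_on with
  | empty => exact ⟨I, inferInstance, id, Function.surjective_id, by simp, by simp⟩
  | insert p S hp ih =>
    obtain ⟨L, _, κ, h1, h2, h3⟩ := ih
    rw [card_insert_of_notMem hp]
    by_cases h : κ p.1 = κ p.2
    · refine ⟨L, inferInstance, κ, h1, fun q hq => ?_, by omega⟩
      rcases mem_insert.1 hq with rfl | hq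
      · exact h
      · exact h2 q hq
    · let f : L → {l : L // l ≠ κ p.2} := fun l => if hl : l = κ p.2 then ⟨κ p.1, h⟩ else ⟨l, hl⟩
      have hf : ∀ l (hl : l ≠ κ p.2), f l = ⟨l, hl⟩ := fun l hl => dif_neg hl
      have hf' : f (κ p.2) = ⟨κ p.1, h⟩ := dif_pos rfl
      refine ⟨{l : L // l ≠ κ p.2}, inferInstance, fun i => f (κ i), ?_, ?_, ?_⟩
      · rintro ⟨l, hl⟩
        obtain ⟨i, rfl⟩ := h1 l
        exact ⟨i, hf _ hl⟩
      · intro q hq
        rcases mem_insert.1 hq with rfl | hq
        · show f (κ q.1) = f (κ q.2)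
          rw [hf', hf _ h]
        · show f (κ q.1) = f (κ q.2)
          rw [h2 q hq]
      · have : Fintype.card {l : L // l ≠ κ p.2} = Fintype.card L - 1 := by
          rw [Fintype.card_subtype_compl, Fintype.card_subtype_eq]
        have : 0 < Fintype.card L := Fintype.card_pos_iff.2 ⟨κ p.2⟩
        omega

/-- the certificate -/
structure Cert {I J PP : Type} [Fintype I] [Fintype J] [Fintype PP] (e1 e2 : J → I)
    (Hp : J → Finset PP) : Prop where
  card : Fintype.card I + Fintype.card PP = Fintype.card J + 1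
  lab : ∀ (F : Finset J) (Q : Finset PP), ∃ (L : Type) (_ : Fintype L) (κ : I → L),
    Function.Surjective κ ∧ (∀ j, ¬ (j ∈ F ∧ Hp j ⊆ Q) → κ (e1 j) = κ (e2 j)) ∧
    #{j | j ∈ F ∧ Hp j ⊆ Q} + 1 ≤ #Q + Fintype.card L
  comp : ∀ T : Finset I, T ≠ univ → ∃ Q : Finset PP,
    #T + #Q ≤ #{j | (e1 j ∈ T ∨ e2 j ∈ T) ∧ Hp j ⊆ Q}

variable {V : Type} [Fintype V]
variable {R : V → V → Prop} (hr : ∀ v, R v v) (ht : ∀ u v w, R u v → R v w → R u w)

theorem cl_biUnion {L : Type} (S : Finset L) (P : L → Finset V) (hP : ∀ l ∈ S, Cl R (P l)) :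
    Cl R (S.biUnion P) := by
  intro u hu v huv
  rw [mem_biUnion] at hu ⊢
  obtain ⟨l, hl, hu⟩ := hu
  exact ⟨l, hl, hP l hl u hu v huv⟩

theorem sum_split' {y : V → ℤ} {k : ℕ} (hg : Good R y k) {Z P Q : Finset V}
    (h1 : Z ∪ (P ∪ Q) = univ) (h2 : P ∩ Q ⊆ Z) :
    ∑ v ∈ Z, y v = ∑ v ∈ Z ∪ P, y v + ∑ v ∈ Z ∪ Q, y v := by
  have h := sum_union_inter (s₁ := Z ∪ P) (s₂ := Z ∪ Q) (f := y)
  have e1 : (Z ∪ P) ∪ (Z ∪ Q) = univ := by
    rw [← union_union_distrib_left]
    exact h1
  have e2 : (Z ∪ P) ∩ (Z ∪ Q) = Z := by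
    rw [← union_inter_distrib_left]
    exact union_eq_left.2 h2
  rw [e1, e2, hg.zero, zero_add] at h
  exact h

/-- a family of parts -/
theorem family_le {y : V → ℤ} {k : ℕ} (hg : Good R y k) {L : Type} (P : L → Finset V)
    (hP : ∀ l, Cl R (P l)) (S : Finset L) : S.Nonempty → ∀ Z : Finset V, Z.Nonempty → Cl R Z →
    (∀ l ∈ S, ¬ P l ⊆ Z) → (∀ l ∈ S, ∀ l' ∈ S, l ≠ l' → P l ∩ P l' ⊆ Z) →
    Z ∪ S.biUnion P = univ → ∑ v ∈ Z, y v ≤ -(2 * k * #S : ℤ) := by
  induction S using Finset.induction_on with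
  | empty => exact fun h => absurd h (by simp)
  | insert l S hl ih =>
    intro _ Z hne hZ h1 h2 h3
    rcases S.eq_empty_or_nonempty with hS | hS
    · subst hS
      have hZu : Z ≠ univ := fun h => h1 l (mem_insert_self _ _) (by rw [h]; exact subset_univ _)
      have := hg.le Z hne hZu hZ
      simpa using this
    · have hdis : ∀ l' ∈ S, P l ∩ P l' ⊆ Z := fun l' hl' =>
        h2 l (mem_insert_self _ _) l' (mem_insert_of_mem hl') (fun h => hl (h ▸ hl'))
      rw [sum_split' hg (P := P l) (Q := S.biUnion P) (by rwa [biUnion_insert] at h3) (by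
        intro v hv
        rw [mem_inter, mem_biUnion] at hv
        obtain ⟨hv1, l', hl', hv2⟩ := hv
        exact hdis l' hl' (mem_inter.2 ⟨hv1, hv2⟩))]
      have e1 := hg.le (Z ∪ S.biUnion P) (hne.mono subset_union_left) (by
        intro h
        apply h1 l (mem_insert_self _ _)
        intro v hv
        have : v ∈ Z ∪ S.biUnion P := by rw [h]; exact mem_univ v
        rcases mem_union.1 this with h | h
        · exact h
        · obtain ⟨l', hl', hv2⟩ := mem_biUnion.1 h
          exact hdis l' hl' (mem_inter.2 ⟨hv, hv2⟩)) (cl_union hZ (cl_biUnion S P fun l _ => hP l))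
      have e2 := ih hS (Z ∪ P l) (hne.mono subset_union_left) (cl_union hZ (hP l))
        (by
          intro l' hl' hsub
          apply h1 l' (mem_insert_of_mem hl')
          intro v hv
          rcases mem_union.1 (hsub hv) with h | h
          · exact h
          · exact hdis l' hl' (mem_inter.2 ⟨h, hv⟩))
        (by
          intro l1 hl1 l2 hl2 hne
          exact (h2 l1 (mem_insert_of_mem hl1) l2 (mem_insert_of_mem hl2) hne).trans
            subset_union_left)
        (by
          rw [biUnion_insert, ← union_assoc] at h3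
          exact h3)
      rw [card_insert_of_notMem hl]
      push_cast
      linarith

section cert

variable {I : Type} [Fintype I] (w : I → V) (hcov : ∀ v, ∃ i, R (w i) v)

include hcov hr ht in
theorem comp_bound {y : V → ℤ} {k : ℕ} (hg : Good R y k) {Z : Finset V} (hne : Z.Nonempty)
    (hZ : Cl R Z) {L : Type} [Fintype L] (κ : I → L) (hs : Function.Surjective κ)
    (hsep : ∀ i i', κ i ≠ κ i' → Ab R (w i) ∩ Ab R (w i') ⊆ Z) :
    ∑ v ∈ Z, y v + 2 * k * Fintype.card L ≤ 2 * k * #{i | w i ∈ Z} := by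
  let P : L → Finset V := fun l => (univ.filter fun i => κ i = l).biUnion fun i => Ab R (w i)
  have hP : ∀ l, Cl R (P l) := fun l => cl_biUnion _ _ fun i _ => cl_Ab ht (w i)
  have hmem : ∀ i, w i ∈ P (κ i) := by
    intro i
    rw [mem_biUnion]
    exact ⟨i, by simp, mem_Ab.2 (hr _)⟩
  let S : Finset L := univ.filter fun l => ∃ i, κ i = l ∧ w i ∉ Z
  have hk0 : (0 : ℤ) ≤ k := by positivity
  -- labels inside `Z`
  have hcount : Fintype.card L ≤ #S + #{i | w i ∈ Z} := by
    have h1 : (univ : Finset L) ⊆ S ∪ (univ.filter fun i => w i ∈ Z).image κ := by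
      intro l _
      by_cases hl : ∃ i, κ i = l ∧ w i ∉ Z
      · exact mem_union_left _ (by rw [mem_filter]; exact ⟨mem_univ _, hl⟩)
      · obtain ⟨i, rfl⟩ := hs l
        refine mem_union_right _ (mem_image_of_mem κ ?_)
        rw [mem_filter]
        refine ⟨mem_univ _, ?_⟩
        by_contra hc
        exact hl ⟨i, rfl, hc⟩
    have h2 := (card_le_card h1).trans (card_union_le _ _)
    have h3 : #((univ.filter fun i => w i ∈ Z).image κ) ≤ #{i | w i ∈ Z} := card_image_le
    rw [card_univ] at h2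
    omega
  have hcount' : (Fintype.card L : ℤ) ≤ #S + #{i | w i ∈ Z} := by exact_mod_cast hcount
  rcases S.eq_empty_or_nonempty with hS | hS
  · have hall : ∀ i, w i ∈ Z := by
      intro i
      by_contra hc
      have : κ i ∈ S := by rw [mem_filter]; exact ⟨mem_univ _, i, rfl, hc⟩
      rw [hS] at this
      exact absurd this (by simp)
    have hZu : Z = univ := by
      rw [eq_univ_iff_forall]
      intro v
      obtain ⟨i, hi⟩ := hcov v
      exact hZ _ (hall i) v hi
    have h0 : ∑ v ∈ Z, y v = 0 := by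
      rw [hZu]
      exact hg.zero
    rw [h0]
    rw [hS, card_empty] at hcount'
    push_cast at hcount'
    nlinarith
  · have hfam := family_le hg P hP S hS Z hne hZ
      (by
        intro l hl hsub
        obtain ⟨i, rfl, hi⟩ := (mem_filter.1 hl).2
        exact hi (hsub (hmem i)))
      (by
        intro l _ l' _ hll v hv
        rw [mem_inter, mem_biUnion, mem_biUnion] at hv
        obtain ⟨⟨i, hi, hvi⟩, i', hi', hvi'⟩ := hv
        rw [mem_filter] at hi hi'
        exact hsep i i' (by rw [hi.2, hi'.2]; exact hll) (mem_inter.2 ⟨hvi, hvi'⟩))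
      (by
        rw [eq_univ_iff_forall]
        intro v
        by_cases hv : v ∈ Z
        · exact mem_union_left _ hv
        · refine mem_union_right _ ?_
          obtain ⟨i, hi⟩ := hcov v
          rw [mem_biUnion]
          refine ⟨κ i, ?_, ?_⟩
          · rw [mem_filter]
            exact ⟨mem_univ _, i, rfl, fun h => hv (hZ _ h v hi)⟩
          · rw [mem_biUnion]
            exact ⟨i, by simp, mem_Ab.2 hi⟩)
    nlinarith

include hr ht hcov in
/-- the slot theorem for graph certificates -/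
theorem src_cert {y : V → ℤ} {k : ℕ} (hk : 3 ≤ k) (hg : Good R y k) {J PP : Type} [Fintype J]
    [Fintype PP] (e1 e2 : J → I) (Hp : J → Finset PP) (hC : Cert e1 e2 Hp)
    (hne : ∀ j, (Ab R (w (e1 j)) ∩ Ab R (w (e2 j))).Nonempty)
    (hconn : ∀ v, ∀ (L : Type) (κ : I → L), (∀ j, R (w (e1 j)) v → R (w (e2 j)) v →
      κ (e1 j) = κ (e2 j)) → ∀ i i', R (w i) v → R (w i') v → κ i = κ i')
    (μ : V → V) (hμ : ∀ v, μ (μ v) = v) (hodd : ∀ v, Odd (y (μ v)) ↔ Odd (y v)) :
    Slots R y k μ := by
  have hk0 : (0 : ℤ) < k := by exact_mod_cast (by omega : 0 < k)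
  have hsum : ∀ Z : Finset V, ∑ v ∈ Z, ((#{i | w i = v} : ℕ) : ℤ) = #{i | w i ∈ Z} := by
    intro Z
    have h1 := card_eq_sum_card_fiberwise (f := w) (s := univ.filter fun i => w i ∈ Z) (t := Z)
      (fun i hi => (mem_filter.1 (mem_coe.1 hi)).2)
    rw [h1, Nat.cast_sum]
    refine sum_congr rfl fun v hv => ?_
    rw [filter_filter]
    congr 2
    refine filter_congr fun i _ => ?_
    exact ⟨fun h => ⟨h ▸ hv, h⟩, fun h => h.2⟩
  let Hc : J → Finset V := fun j => Ab R (w (e1 j)) ∩ Ab R (w (e2 j))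
  obtain ⟨ε, g1, g2, g3⟩ := system' hk hr ht y (fun v => #{i | w i = v}) Hc Hp
    (fun j => Or.inl (hne j)) (by
      have h1 := hsum univ
      have h2 : #{i | w i ∈ (univ : Finset V)} = Fintype.card I := by simp
      rw [h2] at h1
      have h3 := hC.card
      zify
      zify at h3
      rw [h1]
      exact h3) hg.zero (by
      intro Z Q hZ hZQ
      rw [hsum]
      rcases Z.eq_empty_or_nonempty with h0 | hZne
      · subst h0
        have hQ : Q.Nonempty := by
          rcases hZQ with h | h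
          · exact absurd h (by simp)
          · exact h
        have hc0 : cnt Hc Hp ∅ Q = 0 := by
          unfold cnt
          rw [card_eq_zero, eq_empty_iff_forall_notMem]
          intro j hj
          have h1 := (mem_filter.1 hj).2.1
          rw [subset_empty] at h1
          have h2 := hne j
          have h3 : Ab R (w (e1 j)) ∩ Ab R (w (e2 j)) = ∅ := h1
          rw [h3] at h2
          exact absurd h2 (by simp)
        rw [hc0, sum_empty]
        have h4 : #{i | w i ∈ (∅ : Finset V)} = 0 := by simp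
        rw [h4]
        have h5 : (1 : ℤ) ≤ #Q := by exact_mod_cast hQ.card_pos
        push_cast
        nlinarith
      · obtain ⟨L, _, κ, h1, h2, h3⟩ := hC.lab (univ.filter fun j => Hc j ⊆ Z) Q
        have h4 := comp_bound hr ht w hcov hg hZne hZ κ h1 (by
          intro i i' hii v hv
          rw [mem_inter, mem_Ab, mem_Ab] at hv
          by_contra hvZ
          apply hii
          refine hconn v L κ (fun j hj1 hj2 => h2 j ?_) i i' hv.1 hv.2
          rintro ⟨h5, -⟩
          exact hvZ ((mem_filter.1 h5).2 (mem_inter.2 ⟨mem_Ab.2 hj1, mem_Ab.2 hj2⟩)))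
        have h5 : cnt Hc Hp Z Q = #{j | j ∈ (univ.filter fun j => Hc j ⊆ Z) ∧ Hp j ⊆ Q} := by
          unfold cnt
          congr 1
          ext j
          simp only [mem_filter, mem_univ, true_and]
        rw [← h5] at h3
        have h6 : (cnt Hc Hp Z Q : ℤ) + 1 ≤ #Q + Fintype.card L := by exact_mod_cast h3
        nlinarith) μ hμ hodd
  refine ⟨ε, g1, g2, fun Z hZne hZu hZ => ?_⟩
  obtain ⟨Q, hQ⟩ := hC.comp (univ.filter fun i => w i ∈ Z) (by
    intro h
    apply hZu
    rw [eq_univ_iff_forall]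
    intro v
    obtain ⟨i, hi⟩ := hcov v
    have : i ∈ (univ.filter fun i => w i ∈ Z) := by rw [h]; exact mem_univ i
    exact hZ _ (mem_filter.1 this).2 v hi)
  have h1 := g3 Z Q hZ (Or.inl hZne)
  rw [hsum] at h1
  have h2 : #{j | (e1 j ∈ (univ.filter fun i => w i ∈ Z) ∨ e2 j ∈ (univ.filter fun i => w i ∈ Z)) ∧
      Hp j ⊆ Q} ≤ cnt Hc Hp Z Q := by
    refine card_le_card fun j hj => ?_
    rw [mem_filter] at hj ⊢
    refine ⟨mem_univ _, ?_, hj.2.2⟩
    rcases hj.2.1 with h | h
    · exact inter_subset_left.trans (ab_sub hZ (mem_filter.1 h).2)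
    · exact inter_subset_right.trans (ab_sub hZ (mem_filter.1 h).2)
  have h3 : (#{i | w i ∈ Z} : ℤ) + #Q ≤ cnt Hc Hp Z Q := by exact_mod_cast hQ.trans h2
  nlinarith

end cert

end TS9e
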