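import Pool.Agent.Lib_MP_9e7d46_ts.Three
import Pool.Agent.Lib_MP_9e7d46_os.St

/-!
# Orientations of digraphs with few sources

`P` a class of source sides for which the pairing `μ` is robust; all other source sides are down-closed for
a preorder `R` with at most three minimal classes.
-/

set_option autoImplicit false
set_option linter.unusedSectionVars false

namespace TS9e
open Finset Classical OS9e Pool.Agent.DJ9e

variable {V A : Type} [Fintype V] [Fintype A]

/-- an orientation from a sign vector -/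
theorem orient_of_signs {k : ℕ} (s t : A → V)
    (μ : V → V) (hμ : ∀ v, μ (μ v) = v) (hM : ∀ U : Set V, dM μ U ≤ dd s t U)
    (σ : V → ℤ) (h1 : ∀ v, σ (μ v) = - σ v) (hσ : ∀ v, σ v = 1 ∨ σ v = -1 ∨ σ v = 0)
    (hz : ∀ v, σ v ≠ 0 ↔ Odd (dd s t {v}))
    (key : ∀ U : Set V, U.Nonempty → Uᶜ.Nonempty → NoIn s t U → |xs σ U| ≤ dd s t U - 2 * k) :
    ∃ O : A → Bool, ∀ U : Set V, U.Nonempty → Uᶜ.Nonempty → Sh s t U → k ≤ inn s t O U := by
  have habs : ∀ v, |σ v| ≤ 1 := by
    intro v
    rcases hσ v with h | h | h <;> rw [h] <;> simp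
  have htot : xs σ Set.univ = 0 := by
    have := abs_xs_le μ hμ σ h1 habs Set.univ
    have h0 : dM μ Set.univ = 0 := by
      unfold dM
      exact sum_eq_zero fun u _ => by simp
    rw [h0] at this
    exact abs_eq_zero.1 (le_antisymm this (abs_nonneg _))
  have hcomp : ∀ U : Set V, xs σ Uᶜ = - xs σ U := by
    intro U
    have := xs_add_compl σ U
    rw [htot] at this
    linarith
  obtain ⟨O, hO⟩ := hakimi s t σ (by
    intro u
    by_cases h : σ u = 0
    · rw [h, zero_add, Int.even_coe_nat]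
      have : ¬ Odd (dd s t {u}) := fun hc => (hz u).2 hc h
      exact Nat.not_odd_iff_even.1 this
    · have h5 : Odd (dd s t {u} : ℤ) := (Int.odd_coe_nat _).2 ((hz u).1 h)
      rcases hσ u with h | h | h'
      · rw [h]
        exact odd_one.add_odd h5
      · rw [h]
        exact odd_neg_one.add_odd h5
      · exact absurd h' h) htot (by
    intro U
    refine (le_abs_self _).trans ((abs_xs_le μ hμ σ h1 habs U).trans ?_)
    exact_mod_cast hM U)
  refine ⟨O, fun U hU hUc hS => ?_⟩
  have hb : |xs σ U| ≤ dd s t U - 2 * k := by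
    rcases hS with hS | hS
    · exact key U hU hUc hS
    · have := key Uᶜ hUc (by rwa [compl_compl]) (fun a ha hc => ha (hS a hc))
      rw [hcomp, abs_neg, dd_compl] at this
      exact this
  have h5 := hO U
  have h6 := inn_add_compl s t O U
  have h7 := (abs_le.1 hb).2
  zify
  zify at h6
  linarith

/-- the main theorem for a pairing `μ` which is robust for the class `P` -/
theorem orient_src {k : ℕ} (s t : A → V)
    (μ : V → V) (hμ : ∀ v, μ (μ v) = v) (hodd : ∀ v, μ v ≠ v ↔ Odd (dd s t {v}))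
    (hM : ∀ U : Set V, dM μ U ≤ dd s t U)
    (hd : ∀ U : Set V, U.Nonempty → Uᶜ.Nonempty → NoIn s t U → 2 * k ≤ dd s t U)
    (R : V → V → Prop) (hR : ∀ a, R (s a) (t a))
    (hcov : ∀ U : Set V, U.Nonempty → Uᶜ.Nonempty → NoIn s t U →
      dM μ U + 2 * k ≤ dd s t U ∨ ∀ u ∈ U, ∀ v, R v u → v ∈ U)
    (hsl : ∀ y : V → ℤ, Good R y k → (∀ v, Odd (y (μ v)) ↔ Odd (y v)) → Slots R y k μ) :
    ∃ O : A → Bool, ∀ U : Set V, U.Nonempty → Uᶜ.Nonempty → Sh s t U → k ≤ inn s t O U := by
  have hfin : ∀ Z : Finset V, ((Z : Set V).toFinset) = Z := fun Z => by simp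
  have hxs : ∀ (x : V → ℤ) (Z : Finset V), ∑ v ∈ Z, x v = xs x (Z : Set V) := by
    intro x Z
    rw [xs_eq_sum]
    congr 1
    ext v
    simp
  have hNo : ∀ Z : Finset V, Cl R Z → NoOut s t (Z : Set V) := by
    intro Z hZ a ha
    exact hZ _ ha _ (hR a)
  have hg : Good R (bb s t) k := by
    refine ⟨?_, fun Z hne hZu hZ => ?_⟩
    · have h1 : ∑ v, bb s t v = xs (bb s t) Set.univ := by
        unfold xs
        simp
      rw [h1, xs_bb]
      simp
    · rw [hxs, xs_bb_noOut s t _ (hNo Z hZ)]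
      have hc : ((Z : Set V)ᶜ).Nonempty := by
        rw [Set.nonempty_compl]
        intro h
        apply hZu
        rw [eq_univ_iff_forall]
        intro v
        have : v ∈ (Z : Set V) := by rw [h]; exact Set.mem_univ v
        exact this
      have h2 := hd (Z : Set V)ᶜ hc (by rw [compl_compl]; exact hne)
        (fun a ha hc' => ha (hNo Z hZ a hc'))
      rw [dd_compl] at h2
      have : ((2 * k : ℕ) : ℤ) ≤ dd s t (Z : Set V) := by exact_mod_cast h2
      push_cast at this
      linarith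
  have hpar : ∀ v, Odd (bb s t (μ v)) ↔ Odd (bb s t v) := by
    intro v
    rw [odd_bb, odd_bb, ← hodd, ← hodd, hμ]
    exact ⟨fun h => h.symm, fun h => h.symm⟩
  obtain ⟨ε, h1, h2, h3⟩ := hsl (bb s t) hg hpar
  let σ : V → ℤ := fun v => if Odd (bb s t v) then ε v else 0
  have hσ1 : ∀ v, Odd (bb s t v) → σ v = ε v := fun v h => if_pos h
  have hσ0 : ∀ v, ¬ Odd (bb s t v) → σ v = 0 := fun v h => if_neg h
  have hz : ∀ v, σ v ≠ 0 ↔ Odd (dd s t {v}) := by
    intro v
    rw [← odd_bb]
    constructor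
    · intro h
      by_contra hc
      exact h (hσ0 v hc)
    · intro h
      rw [hσ1 v h]
      rcases h1 v with h | h <;> rw [h] <;> norm_num
  have hanti : ∀ v, σ (μ v) = - σ v := by
    intro v
    by_cases h : Odd (bb s t v)
    · rw [hσ1 v h, hσ1 _ ((hpar v).2 h)]
      refine h2 v h ?_
      rw [odd_bb, ← hodd] at h
      exact h
    · rw [hσ0 v h, hσ0 _ (fun hc => h ((hpar v).1 hc)), neg_zero]
  have hval : ∀ v, σ v = 1 ∨ σ v = -1 ∨ σ v = 0 := by
    intro v
    by_cases h : Odd (bb s t v)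
    · rw [hσ1 v h]
      rcases h1 v with h | h
      · exact Or.inl h
      · exact Or.inr (Or.inl h)
    · exact Or.inr (Or.inr (hσ0 v h))
  have habs : ∀ v, |σ v| ≤ 1 := by
    intro v
    rcases hval v with h | h | h <;> rw [h] <;> simp
  refine orient_of_signs s t μ hμ hM σ hanti hval hz ?_
  intro U hU hUc hin
  rcases hcov U hU hUc hin with h | h
  · have h5 := abs_xs_le μ hμ σ hanti habs U
    have h6 : (dM μ U : ℤ) + 2 * k ≤ dd s t U := by exact_mod_cast h
    linarith
  · obtain ⟨Z, hZ⟩ : ∃ Z : Finset V, (Z : Set V) = Uᶜ := ⟨univ.filter fun v => v ∉ U, by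
      ext v
      simp⟩
    have hZc : Cl R Z := by
      intro u hu v huv
      have hu' : u ∈ (Z : Set V) := hu
      rw [hZ] at hu'
      have : v ∈ (Z : Set V) := by
        rw [hZ]
        exact fun hv => hu' (h v hv u huv)
      exact this
    have hne : Z.Nonempty := by
      obtain ⟨v, hv⟩ := hUc
      have : v ∈ (Z : Set V) := by rw [hZ]; exact hv
      exact ⟨v, this⟩
    have hZu : Z ≠ univ := by
      intro hh
      obtain ⟨v, hv⟩ := hU
      have : v ∈ (Z : Set V) := by rw [hh]; simp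
      rw [hZ] at this
      exact this hv
    have h4 := h3 Z hne hZu hZc
    rw [hxs, hxs, hZ, xs_bb_noOut s t Uᶜ (fun a ha hc => ha (hin a hc)), dd_compl] at h4
    have htot : xs σ Set.univ = 0 := by
      have := abs_xs_le μ hμ σ hanti habs Set.univ
      have h0 : dM μ Set.univ = 0 := by
        unfold dM
        exact sum_eq_zero fun u _ => by simp
      rw [h0] at this
      exact abs_eq_zero.1 (le_antisymm this (abs_nonneg _))
    have hcomp := xs_add_compl σ U
    rw [htot] at hcomp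
    have e1 : xs (fun v => if Odd (bb s t v) then ε v else 0) Uᶜ = - xs σ U := by
      have : xs (fun v => if Odd (bb s t v) then ε v else 0) Uᶜ = xs σ Uᶜ := rfl
      rw [this]
      linarith
    rw [e1, abs_neg] at h4
    linarith

/-- at most four sources -/
theorem four_sources {k : ℕ} (hk : 3 ≤ k) (s t : A → V)
    (hd : ∀ U : Set V, U.Nonempty → Uᶜ.Nonempty → NoIn s t U → 2 * k ≤ dd s t U)
    (p a b c : V) (hcov : ∀ v, Rch s t p v ∨ Rch s t a v ∨ Rch s t b v ∨ Rch s t c v) :
    ∃ O : A → Bool, ∀ U : Set V, U.Nonempty → Uᶜ.Nonempty → Sh s t U → k ≤ inn s t O U := by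
  obtain ⟨μ, h1, h2, h3, h4⟩ := flow_pair k s t p a
    (fun U hin hp hq => hd U ⟨p, hp⟩ ⟨a, hq⟩ hin)
  let R : V → V → Prop := fun u v => Rch s t u v ∨ (Rch s t u a ∧ Rch s t p v)
  have hr : ∀ v, R v v := fun v => Or.inl Relation.ReflTransGen.refl
  have ht : ∀ u v w, R u v → R v w → R u w := by
    rintro u v w (g1 | ⟨g1, g2⟩) (g3 | ⟨g3, g4⟩)
    · exact Or.inl (Relation.ReflTransGen.trans g1 g3)
    · exact Or.inr ⟨Relation.ReflTransGen.trans g1 g3, g4⟩
    · exact Or.inr ⟨g1, Relation.ReflTransGen.trans g2 g3⟩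
    · exact Or.inr ⟨g1, g4⟩
  refine orient_src s t μ h1 h2 h3 hd R
    (fun e => Or.inl (Relation.ReflTransGen.single ⟨e, rfl, rfl⟩)) ?_ ?_
  · intro U hU hUc hin
    by_cases hp : p ∈ U
    · by_cases ha : a ∈ U
      · right
        rintro u hu v (g | ⟨g1, g2⟩)
        · exact closed_of_noIn hin hu g
        · exact closed_of_noIn hin ha g1
      · exact Or.inl (h4 U hin hp ha)
    · right
      rintro u hu v (g | ⟨g1, g2⟩)
      · exact closed_of_noIn hin hu g
      · exact absurd (closed_of_noIn hin hu g2) hp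
  · intro y hg hpar
    refine src3 hr ht hk hg a b c ?_ μ h1 hpar
    intro v
    rcases hcov v with h | h | h | h
    · exact Or.inl (Or.inr ⟨Relation.ReflTransGen.refl, h⟩)
    · exact Or.inl (Or.inl h)
    · exact Or.inr (Or.inl (Or.inl h))
    · exact Or.inr (Or.inr (Or.inl h))

end TS9e
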