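import Pool.Agent.Lib_MP_9e7d46_ts.NonCross
import Pool.Agent.Lib_MP_9e7d46_ts.Four

/-!
# Sources on a circle
-/

set_option autoImplicit false
set_option linter.unusedSectionVars false

namespace TS9e
open Finset Classical OS9e Pool.Agent.DJ9e

section slots

variable {V : Type} [Fintype V]
variable {R : V → V → Prop} (hr : ∀ v, R v v) (ht : ∀ u v w, R u v → R v w → R u w)

/-- the circle condition: a non-crossing graph on the sources such that for every vertex the set of the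
sources below it is connected -/
structure Circ (R : V → V → Prop) {n : ℕ} (w : Fin n → V) (E : Finset (Fin n × Fin n)) : Prop where
  cov : ∀ v, ∃ i, R (w i) v
  lt : ∀ e ∈ E, e.1 < e.2
  nc : ∀ e ∈ E, ∀ f ∈ E, ¬ (e.1 < f.1 ∧ f.1 < e.2 ∧ e.2 < f.2)
  conn : ∀ v, ∀ i i', R (w i) v → R (w i') v →
    Cn {e | e ∈ E ∧ R (w e.1) v ∧ R (w e.2) v} i i'

include hr ht in
theorem src_nc {y : V → ℤ} {k : ℕ} (hk : 3 ≤ k) (hg : Good R y k) {n : ℕ} (w : Fin n → V)
    (E : Finset (Fin n × Fin n)) (hE : Circ R w E)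
    (μ : V → V) (hμ : ∀ v, μ (μ v) = v) (hodd : ∀ v, Odd (y (μ v)) ↔ Odd (y v)) :
    Slots R y k μ := by
  have hk0 : (0 : ℤ) < k := by exact_mod_cast (by omega : 0 < k)
  rcases isEmpty_or_nonempty V with hV | ⟨⟨v0⟩⟩
  · exact ⟨fun _ => 1, fun _ => Or.inl rfl, fun v => hV.elim v, fun Z hZ => by
      obtain ⟨v, -⟩ := hZ
      exact hV.elim v⟩
  obtain ⟨i0, -⟩ := hE.cov v0
  have hn : 0 < n := lt_of_le_of_lt (Nat.zero_le _) i0.2
  let E0 : Finset (Fin n × Fin n) := E.filter fun e => (Ab R (w e.1) ∩ Ab R (w e.2)).Nonempty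
  have hE0 : ∀ e, e ∈ E0 ↔ e ∈ E ∧ (Ab R (w e.1) ∩ Ab R (w e.2)).Nonempty := fun e => mem_filter
  have hc0 : ∀ v, ∀ i i', R (w i) v → R (w i') v →
      Cn {e | e ∈ E0 ∧ R (w e.1) v ∧ R (w e.2) v} i i' := by
    intro v i i' hi hi'
    refine (hE.conn v i i' hi hi').mono ?_
    rintro e ⟨h1, h2, h3⟩
    exact ⟨(hE0 e).2 ⟨h1, v, mem_inter.2 ⟨mem_Ab.2 h2, mem_Ab.2 h3⟩⟩, h2, h3⟩
  have hconn : ∀ x y, Cn {e | e ∈ E0} x y := by
    intro x z
    by_contra hcon
    let P1 : Finset V := (univ.filter fun i => Cn {e | e ∈ E0} x i).biUnion fun i => Ab R (w i)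
    let P2 : Finset V := (univ.filter fun i => ¬ Cn {e | e ∈ E0} x i).biUnion fun i => Ab R (w i)
    have hP1 : Cl R P1 := cl_biUnion _ _ fun i _ => cl_Ab ht (w i)
    have hP2 : Cl R P2 := cl_biUnion _ _ fun i _ => cl_Ab ht (w i)
    have hint : P1 ∩ P2 = ∅ := by
      rw [eq_empty_iff_forall_notMem]
      intro v hv
      rw [mem_inter, mem_biUnion, mem_biUnion] at hv
      obtain ⟨⟨i, hi, hvi⟩, j, hj, hvj⟩ := hv
      rw [mem_filter] at hi hj
      apply hj.2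
      refine hi.2.trans ((hc0 v i j (mem_Ab.1 hvi) (mem_Ab.1 hvj)).mono ?_)
      rintro e ⟨h1, -, -⟩
      exact h1
    have hun : P1 ∪ P2 = univ := by
      rw [eq_univ_iff_forall]
      intro v
      obtain ⟨i, hi⟩ := hE.cov v
      rw [mem_union, mem_biUnion, mem_biUnion]
      by_cases hxi : Cn {e | e ∈ E0} x i
      · exact Or.inl ⟨i, by rw [mem_filter]; exact ⟨mem_univ _, hxi⟩, mem_Ab.2 hi⟩
      · exact Or.inr ⟨i, by rw [mem_filter]; exact ⟨mem_univ _, hxi⟩, mem_Ab.2 hi⟩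
    have h1 : w x ∈ P1 := by
      rw [mem_biUnion]
      exact ⟨x, by rw [mem_filter]; exact ⟨mem_univ _, Cn.refl _ _⟩, mem_Ab.2 (hr _)⟩
    have h2 : w z ∈ P2 := by
      rw [mem_biUnion]
      exact ⟨z, by rw [mem_filter]; exact ⟨mem_univ _, hcon⟩, mem_Ab.2 (hr _)⟩
    have h := sum_union_inter (s₁ := P1) (s₂ := P2) (f := y)
    rw [hun, hint, hg.zero, sum_empty] at h
    have e1 := hg.le P1 ⟨_, h1⟩ (fun hh => by
      have h3 : w z ∈ P1 ∩ P2 := mem_inter.2 ⟨by rw [hh]; exact mem_univ _, h2⟩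
      rw [hint] at h3
      exact absurd h3 (by simp)) hP1
    have e2 := hg.le P2 ⟨_, h2⟩ (fun hh => by
      have h3 : w x ∈ P1 ∩ P2 := mem_inter.2 ⟨h1, by rw [hh]; exact mem_univ _⟩
      rw [hint] at h3
      exact absurd h3 (by simp)) hP2
    linarith
  have hC := cert_nc (E := E0) (fun e he => hE.lt e ((hE0 e).1 he).1)
    (fun e he f hf => hE.nc e ((hE0 e).1 he).1 f ((hE0 f).1 hf).1) hn hconn
  exact src_cert hr ht w hE.cov hk hg (fun j : {e // e ∈ E0} => j.1.1)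
    (fun j : {e // e ∈ E0} => j.1.2) (Fc E0) hC (fun j => ((hE0 j.1).1 j.2).2)
    (fun v L κ hκ i i' hi hi' => (hc0 v i i' hi hi').label κ
      (fun e he => hκ ⟨e, he.1⟩ he.2.1 he.2.2)) μ hμ hodd

end slots

variable {V A : Type} [Fintype V] [Fintype A]

/-- reachability after adding the arc from `q` to `p` -/
def Rst (s t : A → V) (p q : V) (u v : V) : Prop := Rch s t u v ∨ (Rch s t u q ∧ Rch s t p v)

/-- reachability after the identification of the vertices of `N` -/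
def Rn (s t : A → V) (N : Set V) (u v : V) : Prop :=
  Rch s t u v ∨ ((∃ n ∈ N, Rch s t u n) ∧ ∃ n ∈ N, Rch s t n v)

theorem rst_refl (s t : A → V) (p q v : V) : Rst s t p q v v :=
  Or.inl Relation.ReflTransGen.refl

theorem rst_trans (s t : A → V) (p q : V) (u v w : V) (h1 : Rst s t p q u v)
    (h2 : Rst s t p q v w) : Rst s t p q u w := by
  rcases h1 with g1 | ⟨g1, g2⟩ <;> rcases h2 with g3 | ⟨g3, g4⟩
  · exact Or.inl (Relation.ReflTransGen.trans g1 g3)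
  · exact Or.inr ⟨Relation.ReflTransGen.trans g1 g3, g4⟩
  · exact Or.inr ⟨g1, Relation.ReflTransGen.trans g2 g3⟩
  · exact Or.inr ⟨g1, g4⟩

theorem rn_refl (s t : A → V) (N : Set V) (v : V) : Rn s t N v v :=
  Or.inl Relation.ReflTransGen.refl

theorem rn_trans (s t : A → V) (N : Set V) (u v w : V) (h1 : Rn s t N u v)
    (h2 : Rn s t N v w) : Rn s t N u w := by
  rcases h1 with g1 | ⟨⟨n, hn, g1⟩, g2⟩ <;> rcases h2 with g3 | ⟨⟨m, hm, g3⟩, g4⟩
  · exact Or.inl (Relation.ReflTransGen.trans g1 g3)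
  · exact Or.inr ⟨⟨m, hm, Relation.ReflTransGen.trans g1 g3⟩, g4⟩
  · obtain ⟨m, hm, g4⟩ := g2
    exact Or.inr ⟨⟨n, hn, g1⟩, m, hm, Relation.ReflTransGen.trans g4 g3⟩
  · exact Or.inr ⟨⟨n, hn, g1⟩, g4⟩

/-- the circle theorem, with a flow from `p` to `q` -/
theorem circle_st {k : ℕ} (hk : 3 ≤ k) (s t : A → V)
    (hd : ∀ U : Set V, U.Nonempty → Uᶜ.Nonempty → NoIn s t U → 2 * k ≤ dd s t U)
    (p q : V) {n : ℕ} (w : Fin n → V) (E : Finset (Fin n × Fin n))
    (hE : Circ (Rst s t p q) w E) :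
    ∃ O : A → Bool, ∀ U : Set V, U.Nonempty → Uᶜ.Nonempty → Sh s t U → k ≤ inn s t O U := by
  obtain ⟨μ, h1, h2, h3, h4⟩ := flow_pair k s t p q
    (fun U hin hp hq => hd U ⟨p, hp⟩ ⟨q, hq⟩ hin)
  refine orient_src s t μ h1 h2 h3 hd (Rst s t p q)
    (fun e => Or.inl (Relation.ReflTransGen.single ⟨e, rfl, rfl⟩)) ?_ ?_
  · intro U hU hUc hin
    by_cases hp : p ∈ U
    · by_cases ha : q ∈ U
      · right
        rintro u hu v (g | ⟨g1, g2⟩)
        · exact closed_of_noIn hin hu g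
        · exact closed_of_noIn hin ha g1
      · exact Or.inl (h4 U hin hp ha)
    · right
      rintro u hu v (g | ⟨g1, g2⟩)
      · exact closed_of_noIn hin hu g
      · exact absurd (closed_of_noIn hin hu g2) hp
  · intro y hg hpar
    exact src_nc (rst_refl s t p q) (rst_trans s t p q) hk hg w E hE μ h1 hpar

/-- the circle theorem, with a linked class `N` -/
theorem circle_hub {k : ℕ} (hk : 3 ≤ k) (s t : A → V) (N : Set V)
    (hd : ∀ U : Set V, U.Nonempty → Uᶜ.Nonempty → NoIn s t U → 2 * k ≤ dd s t U)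
    (hN : ∀ U : Set V, NSep N U → 2 * k ≤ dd s t U) {n : ℕ} (w : Fin n → V)
    (E : Finset (Fin n × Fin n)) (hE : Circ (Rn s t N) w E) :
    ∃ O : A → Bool, ∀ U : Set V, U.Nonempty → Uᶜ.Nonempty → Sh s t U → k ≤ inn s t O U := by
  have hSh : ∀ U : Set V, U.Nonempty → Uᶜ.Nonempty → Sh s t U → 2 * k ≤ dd s t U := by
    intro U hU hUc hS
    rcases hS with hS | hS
    · exact hd U hU hUc hS
    · rw [← dd_compl]
      exact hd Uᶜ hUc (by rwa [compl_compl]) (fun a ha hc => ha (hS a hc))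
  obtain ⟨μ, hμ⟩ := pair_induction (A := A) k (by omega) _ V s t N rfl (fun U hU hUc =>
    ⟨two_le_dd s t k (by omega) hSh U hU hUc, fun h => hN U h⟩)
  have hdM0 : ∀ U : Set V, dM μ U ≤ dd s t U := by
    intro U
    rcases U.eq_empty_or_nonempty with h | h
    · rw [h]
      unfold dM
      simp
    rcases Uᶜ.eq_empty_or_nonempty with h' | h'
    · rw [Set.compl_empty_iff] at h'
      rw [h']
      unfold dM
      simp
    · have := (hμ.bd U h h').1
      omega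
  refine orient_src s t μ hμ.invol hμ.odd hdM0 hd (Rn s t N)
    (fun e => Or.inl (Relation.ReflTransGen.single ⟨e, rfl, rfl⟩)) ?_ ?_
  · intro U hU hUc hin
    by_cases hs : NSep N U
    · exact Or.inl ((hμ.bd U hU hUc).2 hs)
    · right
      rintro u hu v (g | ⟨⟨m, hm, g1⟩, m', hm', g2⟩)
      · exact closed_of_noIn hin hu g
      · have h5 : m' ∈ U := closed_of_noIn hin hu g2
        have h6 : m ∈ U := by
          by_contra hc
          exact hs ⟨⟨m', hm', h5⟩, ⟨m, hm, hc⟩⟩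
        exact closed_of_noIn hin h6 g1
  · intro y hg hpar
    exact src_nc (rn_refl s t N) (rn_trans s t N) hk hg w E hE μ hμ.invol hpar

/-- the circle theorem for a linked class in terms of the strong components -/
theorem circle_hub_quot {k : ℕ} (hk : 3 ≤ k) (s t : A → V) (N : Set V)
    (hd : ∀ U : Set V, U.Nonempty → Uᶜ.Nonempty → NoIn s t U → 2 * k ≤ dd s t U)
    (hN : ∀ X : Set V, (∀ v w, w ∈ comp s t v → (v ∈ X ↔ w ∈ X)) → NSep N X → 2 * k ≤ dd s t X)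
    {n : ℕ} (w : Fin n → V) (E : Finset (Fin n × Fin n)) (hE : Circ (Rn s t N) w E) :
    ∃ O : A → Bool, ∀ U : Set V, U.Nonempty → Uᶜ.Nonempty → Sh s t U → k ≤ inn s t O U := by
  apply orient_of_quot
  have hne : ∀ U : Set (QV s t), U.Nonempty → (qm s t ⁻¹' U).Nonempty := fun U hU =>
    hU.preimage (qm_surj s t)
  have hRn : ∀ u v, Rn (qm s t ∘ s) (qm s t ∘ t) (qm s t '' N) (qm s t u) (qm s t v) ↔
      Rn s t N u v := by
    intro u v
    constructor
    · rintro (h | ⟨⟨_, ⟨m, hm, rfl⟩, h1⟩, ⟨_, ⟨m', hm', rfl⟩, h2⟩⟩)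
      · exact Or.inl (rch_of_q s t h)
      · exact Or.inr ⟨⟨m, hm, rch_of_q s t h1⟩, m', hm', rch_of_q s t h2⟩
    · rintro (h | ⟨⟨m, hm, h1⟩, m', hm', h2⟩)
      · exact Or.inl (q_of_rch s t h)
      · exact Or.inr ⟨⟨_, ⟨m, hm, rfl⟩, q_of_rch s t h1⟩, _, ⟨m', hm', rfl⟩, q_of_rch s t h2⟩
  refine circle_hub hk (qm s t ∘ s) (qm s t ∘ t) (qm s t '' N) ?_ ?_ (fun i => qm s t (w i)) E ?_
  · intro U hU hUc hin
    rw [dd_comp]
    exact hd _ (hne U hU) (by rw [← Set.preimage_compl]; exact hne _ hUc) hin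
  · rintro U ⟨⟨_, ⟨m, hm, rfl⟩, hmU⟩, ⟨_, ⟨m', hm', rfl⟩, hmU'⟩⟩
    rw [dd_comp]
    refine hN _ ?_ ⟨⟨m, hm, hmU⟩, ⟨m', hm', hmU'⟩⟩
    intro v w hw
    have : qm s t v = qm s t w := (qm_eq s t).2 hw
    rw [Set.mem_preimage, Set.mem_preimage, this]
  · refine ⟨fun x => ?_, hE.lt, hE.nc, fun x i i' hi hi' => ?_⟩
    · obtain ⟨v, rfl⟩ := qm_surj s t x
      obtain ⟨i, hi⟩ := hE.cov v
      exact ⟨i, (hRn _ _).2 hi⟩
    · obtain ⟨v, rfl⟩ := qm_surj s t x
      simp only [hRn] at hi hi' ⊢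
      exact hE.conn v i i' hi hi'

end TS9e
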