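import Pool.Agent.Lib_MP_9e7d46_os.Slot

/-!
# The hypergraph slot theorem

`X` a set of vertices; there are `x v` elements at `v`, with the hyperedge `M v` on the nodes `Option W`. If
the hypergraph is `2k`-sparse (every nonempty set `Y` of nodes contains at most `2k (|Y| - 1)` elements) with
equality for the whole, then for every involution `μ` of `X` there are signs `ε` with `ε (μ v) = - ε v` for
the odd `v` with `μ v ≠ v` such that every nonempty `Y` and every set `Q` of vertices with hyperedges inside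
`Y` satisfy `|ε(Q)| + x(Q) ≤ 2k (|Y| - 1)`.
-/

set_option autoImplicit false
set_option linter.unusedSectionVars false

namespace TS9e
open Finset Classical OS9e

section lin

open G3

variable {W : Type*} [Fintype W] [DecidableEq W] {E : Type*} [Fintype E] [DecidableEq E]

/-- restriction of a block vector to the coordinates in `Z` -/
noncomputable def resL (k : ℕ) (Z : Finset W) :
    (W × Fin k → ZMod 3) →ₗ[ZMod 3] ({w // w ∈ Z} × Fin k → ZMod 3) where
  toFun z q := z (q.1.1, q.2)
  map_add' _ _ := rfl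
  map_smul' _ _ := rfl

/-- the block vectors with support in `Y` -/
def spR (k : ℕ) (Y : Finset W) : Submodule (ZMod 3) (W × Fin k → ZMod 3) where
  carrier := {z | ∀ w b, w ∉ Y → z (w, b) = 0}
  zero_mem' := fun _ _ _ => rfl
  add_mem' := by
    intro x y hx1 hy1 w b hw
    rw [Pi.add_apply, hx1 w b hw, hy1 w b hw, add_zero]
  smul_mem' := by
    intro c x hx1 w b hw
    rw [Pi.smul_apply, hx1 w b hw, smul_zero]

theorem block_mem' {k : ℕ} (h : E → W) (t : E → Option W) (c : E → Fin k)
    (Y : Finset W) (e : E) (h1 : h e ∈ Y) (h2 : ∀ w, t e = some w → w ∈ Y) :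
    (fun p : W × Fin k => if c e = p.2 then
      ((Pi.single (h e) 1 - vv (t e) : W → ZMod 3)) p.1 else 0) ∈ spR k Y := by
  intro u b hu
  have e1 : u ≠ h e := fun hh => hu (hh ▸ h1)
  rcases hte : t e with _ | w
  · simp [Pi.single_eq_of_ne e1, vv]
  · have e2 : u ≠ w := fun hh => hu (hh ▸ h2 w hte)
    simp [Pi.single_eq_of_ne e1, vv, Pi.single_eq_of_ne e2]

theorem card_inside_root {k : ℕ} (h : E → W) (t : E → Option W) (c : E → Fin k) (F : Finset E)
    (hF : LinearIndependent (ZMod 3) (fun e : {e // e ∈ F} => fun p : W × Fin k =>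
      if c e = p.2 then ((Pi.single (h e) 1 - vv (t e) : W → ZMod 3)) p.1 else 0))
    (Y : Finset W) :
    #{e ∈ F | h e ∈ Y ∧ ∀ w, t e = some w → w ∈ Y} ≤ k * #Y := by
  set G : Finset E := {e ∈ F | h e ∈ Y ∧ ∀ w, t e = some w → w ∈ Y} with hG
  let ι : {e // e ∈ G} → {e // e ∈ F} := fun e => ⟨e.1, (mem_filter.1 e.2).1⟩
  have hι : Function.Injective ι := fun a b hab =>
    Subtype.ext (congrArg (fun z : {e // e ∈ F} => z.1) hab)
  have hli := hF.comp ι hι
  have hspan : Submodule.span (ZMod 3) (Set.range ((fun e : {e // e ∈ F} => fun p : W × Fin k =>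
      if c e = p.2 then ((Pi.single (h e) 1 - vv (t e) : W → ZMod 3)) p.1 else 0) ∘ ι)) ≤
      spR k Y := by
    rw [Submodule.span_le]
    rintro _ ⟨e, rfl⟩
    have he := (mem_filter.1 e.2).2
    exact block_mem' h t c Y e.1 he.1 he.2
  have hli2 := hli.map (f := resL k Y) (by
    rw [Submodule.disjoint_def]
    intro z hz hz0
    have hz1 := hspan hz
    have hz3 : ∀ w b, w ∈ Y → z (w, b) = 0 := by
      intro w b hw
      exact congrFun (LinearMap.mem_ker.1 hz0) (⟨w, hw⟩, b)
    funext ⟨w, b⟩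
    by_cases hwY : w ∈ Y
    · exact hz3 w b hwY
    · exact hz1 w b hwY)
  have hcard := hli2.fintype_card_le_finrank
  rw [Module.finrank_fintype_fun_eq_card, Fintype.card_prod, Fintype.card_coe, Fintype.card_coe,
    Fintype.card_fin, mul_comm] at hcard
  exact hcard

end lin

/-- the nodes of a set `Y` other than the root -/
noncomputable def unr {W : Type} [Fintype W] (Y : Finset (Option W)) : Finset W :=
  univ.filter fun w => some w ∈ Y

theorem card_unr_add {W : Type} [Fintype W] (Y : Finset (Option W)) (h : none ∈ Y) :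
    #(unr Y) + 1 = #Y := by
  have h1 : Y = insert none ((unr Y).image some) := by
    ext q
    rcases q with _ | w
    · simp [h]
    · simp [unr]
  have h2 : #Y = #(insert none ((unr Y).image some)) := congrArg card h1
  rw [h2, card_insert_of_notMem (by simp), card_image_of_injective _ (Option.some_injective W)]

theorem card_unr {W : Type} [Fintype W] (Y : Finset (Option W)) (h : none ∉ Y) :
    #(unr Y) = #Y := by
  have h1 : Y = (unr Y).image some := by
    ext q
    rcases q with _ | w
    · simp [h]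
    · simp [unr]
  have h2 : #Y = #((unr Y).image some) := congrArg card h1
  rw [h2, card_image_of_injective _ (Option.some_injective W)]

/-- every pairing of the arcs has a transversal `F` such that `F` and its complement have at most
`k * (|Y| - 1)` arcs inside every nonempty set `Y`, which may contain the root -/
theorem split_root {k : ℕ} (hk : G3.GK k) {W E : Type} [Fintype W] [Fintype E]
    (h : E → W) (t : E → Option W) (P : E → E) (hD : G3.Dig k h t)
    (hP : ∀ e, P (P e) = e) (hP' : ∀ e, P e ≠ e) :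
    ∃ F : Finset E, (∀ e, P e ∈ F ↔ e ∉ F) ∧ ∀ Y : Finset (Option W), Y.Nonempty →
      #{e ∈ F | some (h e) ∈ Y ∧ t e ∈ Y} + k ≤ k * #Y ∧
      #{e ∈ Fᶜ | some (h e) ∈ Y ∧ t e ∈ Y} + k ≤ k * #Y := by
  obtain ⟨c, hc⟩ := hk W E h t (by convert hD)
  let x : E → W → ZMod 3 := fun e => Pi.single (h e) 1 - G3.vv (t e)
  have h1 := G3.cf_block x c
  have h2 : G3.cf (∏ e, G3.lf (fun p : W × Fin k => if c e = p.2 then x e p.1 else 0)) ≠ 0 := by
    rw [h1]
    refine prod_ne_zero_iff.2 fun b _ => ?_
    have := hc b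
    rw [G3.D] at this
    rw [prod_congr rfl fun e _ => (G3.af_eq h t e).symm]
    exact this
  obtain ⟨F, hF, hl1, hl2⟩ := G3.exists_split _ P hP hP' h2
  have hl3 : LinearIndependent (ZMod 3) (fun e : {e // e ∈ Fᶜ} => fun p : W × Fin k =>
      if c e = p.2 then ((Pi.single (h e) 1 - G3.vv (t e) : W → ZMod 3)) p.1 else 0) :=
    hl2.comp (fun e : {e // e ∈ Fᶜ} => (⟨e.1, mem_compl.1 e.2⟩ : {e // e ∉ F}))
      (fun a b hab => Subtype.ext (congrArg (fun z : {e // e ∉ F} => z.1) hab))
  have key : ∀ G : Finset E, LinearIndependent (ZMod 3) (fun e : {e // e ∈ G} =>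
      fun p : W × Fin k =>
      if c e = p.2 then ((Pi.single (h e) 1 - G3.vv (t e) : W → ZMod 3)) p.1 else 0) →
      ∀ Y : Finset (Option W), Y.Nonempty → #{e ∈ G | some (h e) ∈ Y ∧ t e ∈ Y} + k ≤ k * #Y := by
    intro G hG Y hY
    by_cases hr : none ∈ Y
    · have h3 := card_inside_root h t c G hG (unr Y)
      have h4 : #{e ∈ G | some (h e) ∈ Y ∧ t e ∈ Y} ≤
          #{e ∈ G | h e ∈ unr Y ∧ ∀ w, t e = some w → w ∈ unr Y} := by
        refine card_le_card fun e he => ?_
        rw [mem_filter] at he ⊢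
        refine ⟨he.1, by simp [unr, he.2.1], fun w hw => ?_⟩
        have := he.2.2
        rw [hw] at this
        simp [unr, this]
      have h5 := card_unr_add Y hr
      rw [← h5, Nat.mul_add, Nat.mul_one]
      omega
    · have hYr : (unr Y).Nonempty := by
        rw [← card_pos, card_unr Y hr]
        exact hY.card_pos
      have h3 := G3.card_inside_le h t c G hG (unr Y) hYr
      have h4 : #{e ∈ G | some (h e) ∈ Y ∧ t e ∈ Y} ≤
          #{e ∈ G | h e ∈ unr Y ∧ ∃ w ∈ unr Y, t e = some w} := by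
        refine card_le_card fun e he => ?_
        rw [mem_filter] at he ⊢
        refine ⟨he.1, by simp [unr, he.2.1], ?_⟩
        rcases hte : t e with _ | w
        · rw [hte] at he
          exact absurd he.2.2 hr
        · refine ⟨w, ?_, rfl⟩
          rw [hte] at he
          simp [unr, he.2.2]
      rw [card_unr Y hr, Nat.mul_sub, Nat.mul_one] at h3
      have h5 : k ≤ k * #Y := Nat.le_mul_of_pos_right _ hY.card_pos
      omega
  exact ⟨F, hF, fun Y hY => ⟨key F hl1 Y hY, key Fᶜ hl3 Y hY⟩⟩

/-- a `2k`-sparse hypergraph with the full number of elements can be trimmed to a `Dig k` -/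
theorem exists_dig_hyp {k : ℕ} {W E : Type} [Fintype W] [Fintype E] (N : E → Finset (Option W))
    (hsp : ∀ Y : Finset (Option W), Y.Nonempty → #{e | N e ⊆ Y} + 2 * k ≤ 2 * k * #Y)
    (htot : Fintype.card E = 2 * k * Fintype.card W) :
    ∃ (h : E → W) (t : E → Option W), G3.Dig k h t ∧ ∀ e, some (h e) ∈ N e ∧ t e ∈ N e := by
  -- heads
  let T : E → Finset (W × Fin (2 * k)) := fun e =>
    (univ.filter fun w => some w ∈ N e) ×ˢ univ
  have hall : ∀ s : Finset E, #s ≤ #(s.biUnion T) := by
    intro s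
    let Y : Finset W := s.biUnion fun e => univ.filter fun w => some w ∈ N e
    have hY : s.biUnion T = Y ×ˢ univ := by
      ext p
      simp only [T, Y, mem_biUnion, mem_product, mem_univ, and_true]
    have hcard : #(s.biUnion T) = 2 * k * #Y := by
      rw [hY, card_product, card_univ, Fintype.card_fin, mul_comm]
    rw [hcard]
    let Y' : Finset (Option W) := insert none (Y.image some)
    have h1 := hsp Y' ⟨none, mem_insert_self _ _⟩
    have h2 : #Y' = #Y + 1 := by
      rw [card_insert_of_notMem (by simp), card_image_of_injective _ (Option.some_injective W)]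
    have h3 : s ⊆ univ.filter (fun e => N e ⊆ Y') := by
      intro e he
      rw [mem_filter]
      refine ⟨mem_univ _, fun q hq => ?_⟩
      rcases q with _ | w
      · exact mem_insert_self _ _
      · refine mem_insert_of_mem (mem_image_of_mem _ ?_)
        rw [mem_biUnion]
        exact ⟨e, he, by simp [hq]⟩
    have h4 := card_le_card h3
    rw [h2, Nat.mul_add, Nat.mul_one] at h1
    omega
  obtain ⟨f, hfi, hfT⟩ := (all_card_le_biUnion_card_iff_exists_injective T).1 hall
  have hcardE : Fintype.card E = Fintype.card (W × Fin (2 * k)) := by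
    rw [htot]
    simp only [Fintype.card_prod, Fintype.card_fin]
    ring
  have hbij : Function.Bijective f := (Fintype.bijective_iff_injective_and_card f).2 ⟨hfi, hcardE⟩
  let h : E → W := fun e => (f e).1
  have hhN : ∀ e, some (h e) ∈ N e := by
    intro e
    have := hfT e
    simp only [T, mem_product, mem_filter, mem_univ, true_and, and_true] at this
    exact this
  have hdeg : ∀ w, #{e | h e = w} = 2 * k := by
    intro w
    have : (univ.filter fun e => h e = w).image f = univ.filter (fun p => p.1 = w) := by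
      ext p
      simp only [mem_image, mem_filter, mem_univ, true_and]
      constructor
      · rintro ⟨e, he, rfl⟩
        exact he
      · intro hp
        obtain ⟨e, rfl⟩ := hbij.2 p
        exact ⟨e, hp, rfl⟩
    rw [← card_image_of_injective _ hfi, this]
    have h2 : (univ.filter fun p : W × Fin (2 * k) => p.1 = w) = {w} ×ˢ univ := by
      ext p
      simp only [mem_filter, mem_univ, true_and, mem_product, mem_singleton, and_true]
    rw [h2, card_product, card_singleton, card_univ, Fintype.card_fin, one_mul]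
  have hdegY : ∀ Y : Finset W, #{e | h e ∈ Y} = 2 * k * #Y := by
    intro Y
    rw [card_eq_sum_card_fiberwise (f := h) (s := {e | h e ∈ Y}) (t := Y)
      (fun e he => (mem_filter.1 (mem_coe.1 he)).2)]
    rw [sum_congr rfl (g := fun _ => 2 * k), sum_const, smul_eq_mul, mul_comm]
    intro w hw
    rw [filter_filter, ← hdeg w]
    congr 1
    refine filter_congr fun e _ => ?_
    exact ⟨fun hh => hh.2, fun hh => ⟨hh ▸ hw, hh⟩⟩
  -- tails
  obtain ⟨t, ht1, ht2⟩ := trim (2 * k) h N (by
    intro e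
    exact ⟨_, hhN e⟩) (by
    intro Y hY
    have h1 : ∑ e, ind (h e) (N e) Y = #{e | h e ∈ Y ∧ ¬ Ins (N e) Y} := by
      rw [card_filter]
      rfl
    have h2 : #{e | h e ∈ Y} ≤ #{e | h e ∈ Y ∧ ¬ Ins (N e) Y} +
        #{e | N e ⊆ Y.image some} := by
      rw [← filter_filter]
      have := card_filter_add_card_filter_not (s := univ.filter fun e => h e ∈ Y)
        (fun e => Ins (N e) Y)
      have h3 : #((univ.filter fun e => h e ∈ Y).filter (fun e => Ins (N e) Y)) ≤
          #{e | N e ⊆ Y.image some} := by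
        refine card_le_card fun e he => ?_
        rw [mem_filter] at he
        rw [mem_filter]
        refine ⟨mem_univ _, fun q hq => ?_⟩
        obtain ⟨w, hw, rfl⟩ := he.2 q hq
        exact mem_image_of_mem _ hw
      omega
    have h3 := hsp (Y.image some) (hY.image _)
    rw [card_image_of_injective _ (Option.some_injective W)] at h3
    have h4 := hdegY Y
    omega)
  exact ⟨h, t, ⟨by convert hdeg, by convert ht2⟩, fun e => ⟨hhN e, ht1 e⟩⟩

/-- the hypergraph slot theorem -/
theorem hyper {k : ℕ} (hk : 3 ≤ k) {X W : Type} [Fintype X] [Fintype W] (x : X → ℕ)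
    (M : X → Finset (Option W))
    (hsp : ∀ Y : Finset (Option W), Y.Nonempty → ∀ Q : Finset X, (∀ v ∈ Q, M v ⊆ Y) →
      ∑ v ∈ Q, x v + 2 * k ≤ 2 * k * #Y)
    (htot : ∑ v, x v = 2 * k * Fintype.card W)
    (μ : X → X) (hμ : ∀ v, μ (μ v) = v) (hodd : ∀ v, Odd (x (μ v)) ↔ Odd (x v)) :
    ∃ ε : X → ℤ, (∀ v, ε v = 1 ∨ ε v = -1) ∧
      (∀ v, Odd (x v) → μ v ≠ v → ε (μ v) = - ε v) ∧
      ∀ Y : Finset (Option W), Y.Nonempty → ∀ Q : Finset X, (∀ v ∈ Q, M v ⊆ Y) →
        |∑ v ∈ Q, if Odd (x v) then ε v else 0| + ((∑ v ∈ Q, x v : ℕ) : ℤ) + 2 * k ≤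
          2 * k * #Y := by
  let N : EE x 0 → Finset (Option W) := fun e => Sum.elim (fun p => M p.1) (fun _ => ∅) e
  have hcardE : Fintype.card (EE x 0) = 2 * k * Fintype.card W := by
    rw [card_EE, add_zero, htot]
  obtain ⟨h, t, hD, hht⟩ := exists_dig_hyp (k := k) N (by
    intro Y hY
    have h1 := hsp Y hY (univ.filter fun v => M v ⊆ Y) (fun v hv => (mem_filter.1 hv).2)
    have h2 : #{e : EE x 0 | N e ⊆ Y} ≤ ∑ v ∈ univ.filter (fun v => M v ⊆ Y), x v := by
      rw [card_filter, sum_EE]
      simp only [univ_eq_empty, sum_empty, add_zero]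
      rw [← sum_filter_add_sum_filter_not univ (fun v => M v ⊆ Y)]
      have h3 : ∑ v ∈ univ.filter (fun v => ¬ M v ⊆ Y),
          ∑ i : Fin (x v), (if N (Sum.inl ⟨v, i⟩) ⊆ Y then 1 else 0) = 0 := by
        refine sum_eq_zero fun v hv => sum_eq_zero fun i _ => ?_
        rw [if_neg]
        exact (mem_filter.1 hv).2
      rw [h3, add_zero]
      refine sum_le_sum fun v _ => ?_
      calc ∑ i : Fin (x v), (if N (Sum.inl ⟨v, i⟩) ⊆ Y then 1 else 0)
          ≤ ∑ i : Fin (x v), 1 := sum_le_sum fun i _ => by split_ifs <;> omega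
        _ = x v := by simp
    omega) hcardE
  have hev : Even (Fintype.card (EE x 0)) := by
    rw [hcardE, mul_assoc]
    exact even_two_mul _
  obtain ⟨P, hP1, hP2, hP3⟩ := exists_invol_cells (cell x 0 μ) (by
    intro c
    have := even_cell x 0 μ hμ hodd hev c
    refine Eq.mp (congrArg Even ?_) this
    congr)
  obtain ⟨F, hF1, hF2⟩ := split_root (gk hk) h t P hD hP1 hP2
  let g : EE x 0 → ℤ := fun e => if e ∈ F then 1 else -1
  have hg : ∀ e, g (P e) = - g e := by
    intro e
    simp only [g, hF1]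
    by_cases h : e ∈ F <;> simp [h]
  let ε : X → ℤ := fun v =>
    if ∃ i : Fin (x v), i.1 + 1 = x v ∧ Sum.inl ⟨v, i⟩ ∈ F then 1 else -1
  have hε : ∀ v (i : Fin (x v)), i.1 + 1 = x v → g (Sum.inl ⟨v, i⟩) = ε v := by
    intro v i hi
    simp only [g, ε]
    by_cases hF : Sum.inl ⟨v, i⟩ ∈ F
    · rw [if_pos hF, if_pos ⟨i, hi, hF⟩]
    · rw [if_neg hF, if_neg]
      rintro ⟨j, hj, hjF⟩
      have : j = i := Fin.ext (by omega)
      rw [this] at hjF
      exact hF hjF
  -- the sum of `g` over the elements at `v`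
  have hgv : ∀ v, ∑ i : Fin (x v), g (Sum.inl ⟨v, i⟩) = if Odd (x v) then ε v else 0 := by
    intro v
    let G : EE x 0 → ℤ := fun e => if cell x 0 μ e = some (Sum.inl v) then g e else 0
    have hG : ∑ e, G e = 0 := by
      let Pe : Equiv.Perm (EE x 0) := ⟨P, P, hP1, hP1⟩
      have h1 : ∑ e, G (Pe e) = ∑ e, G e := Equiv.sum_comp Pe G
      have h2 : ∀ e, G (Pe e) = - G e := by
        intro e
        have : Pe e = P e := rfl
        simp only [G, this, hP3, hg]
        split_ifs <;> simp
      rw [sum_congr rfl fun e _ => h2 e, sum_neg_distrib] at h1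
      linarith
    rw [Fintype.sum_sum_type, Fintype.sum_sigma] at hG
    have h2 : ∑ j : Fin 0, G (Sum.inr j) = 0 := sum_eq_zero fun j _ => by simp [G, cell]
    rw [h2, add_zero, sum_eq_single v] at hG
    · have h3 : ∀ i : Fin (x v), g (Sum.inl ⟨v, i⟩) = G (Sum.inl ⟨v, i⟩) +
          (if i.1 + 1 = x v then (if Odd (x v) then ε v else 0) else 0) := by
        intro i
        simp only [G]
        by_cases hi : i.1 + 1 = x v
        · by_cases ho : Odd (x v)
          · rw [if_pos hi, if_pos ho, if_neg (cell_ne hi ho), zero_add, hε v i hi]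
          · rw [if_pos hi, if_neg ho,
              if_pos (cell_eq fun hh => ho hh.2), add_zero]
        · rw [if_neg hi, if_pos (cell_eq fun hh => hi hh.1), add_zero]
      rw [sum_congr rfl fun i _ => h3 i, sum_add_distrib, hG, zero_add]
      by_cases ho : Odd (x v)
      · rw [if_pos ho]
        have hpos : 0 < x v := ho.pos
        rw [sum_eq_single ⟨x v - 1, by omega⟩]
        · rw [if_pos]
          show x v - 1 + 1 = x v
          omega
        · intro i _ hi
          rw [if_neg]
          intro hh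
          apply hi
          ext
          show i.1 = x v - 1
          omega
        · intro hh
          exact absurd (mem_univ _) hh
      · rw [if_neg ho]
        exact sum_eq_zero fun i _ => by simp
    · intro u _ hu
      refine sum_eq_zero fun i _ => ?_
      simp only [G, cell]
      rw [if_neg]
      split_ifs <;> simp [hu]
    · intro hh
      exact absurd (mem_univ _) hh
  refine ⟨ε, fun v => ?_, fun v hox hne => ?_, fun Y hY Q hQ => ?_⟩
  · simp only [ε]
    split_ifs
    · exact Or.inl rfl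
    · exact Or.inr rfl
  · have hpos : 0 < x v := hox.pos
    let i : Fin (x v) := ⟨x v - 1, by omega⟩
    have hi : i.1 + 1 = x v := by
      show x v - 1 + 1 = x v
      omega
    have hcell : cell x 0 μ (Sum.inl ⟨v, i⟩) = some (Sum.inr s(v, μ v)) := by
      simp only [cell]
      rw [if_pos ⟨hi, hox⟩, if_neg hne]
    have hPc := hP3 (Sum.inl ⟨v, i⟩)
    rw [hcell] at hPc
    rcases hPe : P (Sum.inl ⟨v, i⟩) with ⟨u, j⟩ | j
    · rw [hPe] at hPc
      simp only [cell] at hPc
      split_ifs at hPc with h4 h5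
      · rw [Option.some.injEq, Sum.inr.injEq, Sym2.eq_iff] at hPc
        rcases hPc with ⟨h6, -⟩ | ⟨h6, -⟩
        · subst h6
          exfalso
          apply hP2 (Sum.inl ⟨u, i⟩)
          rw [hPe]
          have : j = i := Fin.ext (by have := h4.1; omega)
          rw [this]
        · subst h6
          rw [← hε _ j h4.1, ← hε v i hi, ← hPe, hg]
      · simp at hPc
    · exact j.elim0
  · have hgZ : ∑ v ∈ Q, (if Odd (x v) then ε v else 0) =
        ∑ v ∈ Q, ∑ i : Fin (x v), g (Sum.inl ⟨v, i⟩) := sum_congr rfl fun v _ => (hgv v).symm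
    obtain ⟨hb1, hb2⟩ := hF2 Y hY
    have hcount : ∀ F' : Finset (EE x 0), ∑ v ∈ Q, ∑ i : Fin (x v),
        (if Sum.inl ⟨v, i⟩ ∈ F' then 1 else 0) ≤
        #{e ∈ F' | some (h e) ∈ Y ∧ t e ∈ Y} := by
      intro F'
      have hF' : (F'.filter fun e => some (h e) ∈ Y ∧ t e ∈ Y) =
          univ.filter fun e => e ∈ F' ∧ (some (h e) ∈ Y ∧ t e ∈ Y) := by
        ext e
        simp only [mem_filter, mem_univ, true_and]
      rw [hF', card_filter, sum_EE]
      refine le_trans ?_ (Nat.le_add_right _ _)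
      calc ∑ v ∈ Q, ∑ i : Fin (x v), (if Sum.inl ⟨v, i⟩ ∈ F' then 1 else 0)
          ≤ ∑ v ∈ Q, ∑ i : Fin (x v), (if (Sum.inl ⟨v, i⟩ : EE x 0) ∈ F' ∧
              (some (h (Sum.inl ⟨v, i⟩)) ∈ Y ∧ t (Sum.inl ⟨v, i⟩) ∈ Y) then 1 else 0) := by
            refine sum_le_sum fun v hv => sum_le_sum fun i _ => ?_
            by_cases hiF : (Sum.inl ⟨v, i⟩ : EE x 0) ∈ F'
            · rw [if_pos hiF, if_pos]
              obtain ⟨hh1, hh2⟩ := hht (Sum.inl ⟨v, i⟩)
              exact ⟨hiF, hQ v hv hh1, hQ v hv hh2⟩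
            · rw [if_neg hiF]
              exact Nat.zero_le _
        _ ≤ _ := sum_le_sum_of_subset (subset_univ _)
    have c1 := (Nat.add_le_add_right (hcount F) k).trans hb1
    have hb2' : #{e ∈ Fᶜ | some (h e) ∈ Y ∧ t e ∈ Y} + k ≤ k * #Y := by
      refine le_trans (Nat.add_le_add_right (card_le_card ?_) k) hb2
      intro e he
      simp only [mem_filter, mem_compl] at he ⊢
      exact he
    have c2 := (Nat.add_le_add_right (hcount Fᶜ) k).trans hb2'
    rw [hgZ]
    have e1 : ∑ v ∈ Q, ∑ i : Fin (x v), g (Sum.inl ⟨v, i⟩) =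
        ((∑ v ∈ Q, ∑ i : Fin (x v), (if (Sum.inl ⟨v, i⟩ : EE x 0) ∈ F then 1 else 0) : ℕ) : ℤ) -
        ((∑ v ∈ Q, ∑ i : Fin (x v), (if (Sum.inl ⟨v, i⟩ : EE x 0) ∈ Fᶜ then 1 else 0) : ℕ) : ℤ) := by
      push_cast
      rw [← sum_sub_distrib]
      refine sum_congr rfl fun v _ => ?_
      rw [← sum_sub_distrib]
      refine sum_congr rfl fun i _ => ?_
      simp only [g, mem_compl]
      by_cases hiF : (Sum.inl ⟨v, i⟩ : EE x 0) ∈ F <;> simp [hiF]
    have e2 : ∑ v ∈ Q, ∑ i : Fin (x v), (if (Sum.inl ⟨v, i⟩ : EE x 0) ∈ F then 1 else 0) +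
        ∑ v ∈ Q, ∑ i : Fin (x v), (if (Sum.inl ⟨v, i⟩ : EE x 0) ∈ Fᶜ then 1 else 0) =
        ∑ v ∈ Q, x v := by
      rw [← sum_add_distrib]
      refine sum_congr rfl fun v _ => ?_
      rw [← sum_add_distrib]
      have : ∀ i : Fin (x v), (if (Sum.inl ⟨v, i⟩ : EE x 0) ∈ F then 1 else 0) +
          (if (Sum.inl ⟨v, i⟩ : EE x 0) ∈ Fᶜ then 1 else 0) = 1 := by
        intro i
        by_cases hiF : (Sum.inl ⟨v, i⟩ : EE x 0) ∈ F <;> simp [hiF]
      rw [sum_congr rfl fun i _ => this i]
      simp
    rw [e1]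
    generalize ∑ v ∈ Q, ∑ i : Fin (x v), (if (Sum.inl ⟨v, i⟩ : EE x 0) ∈ F then 1 else 0) = a
      at *
    generalize ∑ v ∈ Q, ∑ i : Fin (x v), (if (Sum.inl ⟨v, i⟩ : EE x 0) ∈ Fᶜ then 1 else 0) = b
      at *
    rw [← e2]
    zify at c1 c2
    push_cast
    rcases abs_cases ((a : ℤ) - b) with ⟨h1, -⟩ | ⟨h1, -⟩ <;> rw [h1] <;> nlinarith

end TS9e
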