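import Pool.Agent.Lib_MP_9e7d46_ts.Cert

/-!
# Non-crossing graphs

A connected graph on `Fin n` without crossing edges gives a certificate: the extra nodes are the bounded
faces; a face is represented by its longest edge.
-/

set_option autoImplicit false
set_option linter.unusedSectionVars false

namespace TS9e
open Finset Classical

variable {n : ℕ}

/-- `x` and `y` are connected by edges in `S` -/
def Cn (S : Set (Fin n × Fin n)) (x y : Fin n) : Prop :=
  Relation.ReflTransGen (fun x y => (x, y) ∈ S ∨ (y, x) ∈ S) x y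

theorem Cn.refl (S : Set (Fin n × Fin n)) (x : Fin n) : Cn S x x := Relation.ReflTransGen.refl

theorem Cn.trans {S : Set (Fin n × Fin n)} {x y z : Fin n} (h1 : Cn S x y) (h2 : Cn S y z) :
    Cn S x z := Relation.ReflTransGen.trans h1 h2

theorem Cn.symm {S : Set (Fin n × Fin n)} {x y : Fin n} (h : Cn S x y) : Cn S y x := by
  unfold Cn at h
  induction h with
  | refl => exact Cn.refl S x
  | tail _ hbc ih => exact Cn.trans (Relation.ReflTransGen.single hbc.symm) ih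

theorem Cn.edge {S : Set (Fin n × Fin n)} {e : Fin n × Fin n} (h : e ∈ S) : Cn S e.1 e.2 :=
  Relation.ReflTransGen.single (Or.inl h)

theorem Cn.mono {S T : Set (Fin n × Fin n)} (h : S ⊆ T) {x y : Fin n} (hx : Cn S x y) :
    Cn T x y := by
  unfold Cn at hx
  induction hx with
  | refl => exact Cn.refl T x
  | tail _ hbc ih =>
    refine Cn.trans ih (Relation.ReflTransGen.single ?_)
    rcases hbc with h' | h'
    · exact Or.inl (h h')
    · exact Or.inr (h h')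

/-- a path which leaves the set `X` uses an edge between `X` and the complement -/
theorem Cn.cross {S : Set (Fin n × Fin n)} {x y : Fin n} (h : Cn S x y) (X : Set (Fin n))
    (hx : x ∈ X) (hy : y ∉ X) : ∃ e ∈ S, (e.1 ∈ X ∧ e.2 ∉ X) ∨ (e.1 ∉ X ∧ e.2 ∈ X) := by
  unfold Cn at h
  induction h with
  | refl => exact absurd hx hy
  | @tail b c _ hbc ih =>
    by_cases hb : b ∈ X
    · rcases hbc with h' | h'
      · exact ⟨_, h', Or.inl ⟨hb, hy⟩⟩
      · exact ⟨_, h', Or.inr ⟨hy, hb⟩⟩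
    · exact ih hb

theorem Cn.label {S : Set (Fin n × Fin n)} {x y : Fin n} (h : Cn S x y) {L : Type}
    (κ : Fin n → L) (hκ : ∀ e ∈ S, κ e.1 = κ e.2) : κ x = κ y := by
  unfold Cn at h
  induction h with
  | refl => rfl
  | tail _ hbc ih =>
    rw [ih]
    rcases hbc with h' | h'
    · exact hκ _ h'
    · exact (hκ _ h').symm

/-- `f` is nested under `e` -/
def Nst (f e : Fin n × Fin n) : Prop := e.1 ≤ f.1 ∧ f.2 ≤ e.2 ∧ f ≠ e

/-- `f` is a maximal edge under `e` -/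
def Cov (E : Finset (Fin n × Fin n)) (f e : Fin n × Fin n) : Prop :=
  f ∈ E ∧ e ∈ E ∧ Nst f e ∧ ∀ g ∈ E, ¬ (Nst f g ∧ Nst g e)

/-- `e` closes a face -/
def Clo (E : Finset (Fin n × Fin n)) (e : Fin n × Fin n) : Prop :=
  e ∈ E ∧ Cn {f | f ∈ E ∧ Nst f e} e.1 e.2

/-- the length -/
def len (e : Fin n × Fin n) : ℕ := e.2.1 - e.1.1

theorem len_lt {f e : Fin n × Fin n} (hf : f.1 < f.2) (h : Nst f e) : len f < len e := by
  obtain ⟨h1, h2, h3⟩ := h
  have h4 : e.1.1 ≤ f.1.1 := h1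
  have h5 : f.2.1 ≤ e.2.1 := h2
  have h6 : f.1.1 < f.2.1 := hf
  have h7 : ¬ (f.1.1 = e.1.1 ∧ f.2.1 = e.2.1) := by
    rintro ⟨a, b⟩
    exact h3 (Prod.ext (Fin.ext a) (Fin.ext b))
  unfold len
  omega

section nc

variable {E : Finset (Fin n × Fin n)} (hlt : ∀ e ∈ E, e.1 < e.2)
  (hnc : ∀ e ∈ E, ∀ f ∈ E, ¬ (e.1 < f.1 ∧ f.1 < e.2 ∧ e.2 < f.2))

include hlt hnc in
/-- the boundary path of a face -/
theorem face_path {e : Fin n × Fin n} (he : e ∈ E) :
    ∀ (m : ℕ) (a : Fin n), e.2.1 - a.1 ≤ m → e.1 ≤ a → a ≤ e.2 →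
      (∀ f ∈ E, Nst f e → ¬ (f.1 < a ∧ a < f.2)) →
      Cn {f | f ∈ E ∧ Nst f e} a e.2 → Cn {f | Cov E f e} a e.2 := by
  intro m
  induction m with
  | zero =>
    intro a h1 _ h3 _ _
    have h3' : a.1 ≤ e.2.1 := h3
    have : a = e.2 := Fin.ext (by omega)
    rw [this]
    exact Cn.refl _ _
  | succ m ih =>
    intro a h1 h2 h3 h4 h5
    by_cases hae : a = e.2
    · rw [hae]
      exact Cn.refl _ _
    have hlt' : a < e.2 := lt_of_le_of_ne h3 hae
    obtain ⟨g, ⟨hgE, hgN⟩, hg⟩ := h5.cross {x | x ≤ a} (le_refl a) (not_le.2 hlt')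
    have hg12 := hlt g hgE
    have hg' : g.1 ≤ a ∧ a < g.2 := by
      rcases hg with ⟨p, q⟩ | ⟨p, q⟩
      · exact ⟨p, not_le.1 q⟩
      · have p' : a < g.1 := not_le.1 p
        have q' : g.2 ≤ a := q
        exact absurd (lt_trans p' hg12) (not_lt.2 q')
    -- a maximal edge
    obtain ⟨f, hf, hmax⟩ := exists_max_image
      (E.filter fun f => Nst f e ∧ f.1 ≤ g.1 ∧ g.2 ≤ f.2) len
      ⟨g, mem_filter.2 ⟨hgE, hgN, le_refl _, le_refl _⟩⟩
    obtain ⟨hfE, hfN, hf1, hf2⟩ := mem_filter.1 hf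
    have hfa : f.1 = a := by
      by_contra hne
      exact h4 f hfE hfN ⟨lt_of_le_of_ne (hf1.trans hg'.1) hne, lt_of_lt_of_le hg'.2 hf2⟩
    have hcov : Cov E f e := by
      refine ⟨hfE, he, hfN, ?_⟩
      rintro h hhE ⟨c1, c2⟩
      have c3 := hmax h (mem_filter.2 ⟨hhE, c2, c1.1.trans hf1, hf2.trans c1.2.1⟩)
      have c4 := len_lt (hlt f hfE) c1
      omega
    have hf12 := hlt f hfE
    have hd : a.1 < f.2.1 := by
      have : f.1 < f.2 := hf12
      rw [hfa] at this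
      exact this
    have step : Cn {f | Cov E f e} a f.2 := by
      have := Cn.edge (S := {f | Cov E f e}) (e := f) hcov
      rwa [hfa] at this
    refine step.trans (ih f.2 (by omega) (h2.trans (le_of_lt hd)) hfN.2.1 ?_ ?_)
    · rintro g' hg'E hg'N ⟨c1, c2⟩
      have c3 : g'.1 ≤ f.1 := by
        by_contra hcon
        exact hnc f hfE g' hg'E ⟨not_le.1 hcon, c1, c2⟩
      refine hcov.2.2.2 g' hg'E ⟨⟨c3, le_of_lt c2, fun h => ?_⟩, hg'N⟩
      rw [h] at c2
      exact absurd c2 (lt_irrefl _)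
    · have h6 : Cn {f | f ∈ E ∧ Nst f e} a f.2 := by
        have := Cn.edge (S := {f | f ∈ E ∧ Nst f e}) (e := f) ⟨hfE, hfN⟩
        rwa [hfa] at this
      exact h6.symm.trans h5

include hlt hnc in
theorem clo_path {e : Fin n × Fin n} (he : Clo E e) : Cn {f | Cov E f e} e.1 e.2 := by
  refine face_path hlt hnc he.1 _ e.1 (le_refl _) (le_refl _) (le_of_lt (hlt e he.1)) ?_ he.2
  rintro f _ hfN ⟨h1, -⟩
  exact absurd hfN.1 (not_le.2 h1)

include hlt hnc in
/-- if the ends of `e` are connected under `e` inside `U`, then the face of `e` is inside `U` -/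
theorem face_sub {e : Fin n × Fin n} {U : Finset (Fin n)}
    (h1 : e.1 ∈ U) (h2 : e.2 ∈ U)
    (hc : Cn {f | f ∈ E ∧ Nst f e ∧ f.1 ∈ U ∧ f.2 ∈ U} e.1 e.2) {f : Fin n × Fin n}
    (hf : Cov E f e) : f.1 ∈ U ∧ f.2 ∈ U := by
  obtain ⟨hfE, heE, hfN, hmax⟩ := hf
  have hf12 := hlt f hfE
  constructor
  · by_contra hfU
    have hne : e.1 ≠ f.1 := fun h => hfU (h ▸ h1)
    have hlt1 : e.1 < f.1 := lt_of_le_of_ne hfN.1 hne
    obtain ⟨g, ⟨hgE, hgN, hg1, hg2⟩, hg⟩ := hc.cross {x | x < f.1} hlt1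
      (not_lt.2 ((le_of_lt hf12).trans hfN.2.1))
    have hg12 := hlt g hgE
    have c : g.1 < f.1 ∧ f.1 < g.2 := by
      rcases hg with ⟨p, q⟩ | ⟨p, q⟩
      · refine ⟨p, lt_of_le_of_ne (not_lt.1 q) fun h => hfU (h ▸ hg2)⟩
      · have p' : f.1 ≤ g.1 := not_lt.1 p
        have q' : g.2 < f.1 := q
        exact absurd (lt_of_le_of_lt p' hg12) (not_lt.2 (le_of_lt q'))
    have c2 : f.2 ≤ g.2 := by
      by_contra hcon
      exact hnc g hgE f hfE ⟨c.1, c.2, not_le.1 hcon⟩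
    refine hmax g hgE ⟨⟨le_of_lt c.1, c2, fun h => ?_⟩, hgN⟩
    rw [h] at c
    exact absurd c.1 (lt_irrefl _)
  · by_contra hfU
    have hne : f.2 ≠ e.2 := fun h => hfU (h ▸ h2)
    have hlt1 : f.2 < e.2 := lt_of_le_of_ne hfN.2.1 hne
    obtain ⟨g, ⟨hgE, hgN, hg1, hg2⟩, hg⟩ := hc.cross {x | x < f.2}
      (lt_of_le_of_lt hfN.1 hf12) (not_lt.2 (le_of_lt hlt1))
    have hg12 := hlt g hgE
    have c : g.1 < f.2 ∧ f.2 < g.2 := by
      rcases hg with ⟨p, q⟩ | ⟨p, q⟩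
      · refine ⟨p, lt_of_le_of_ne (not_lt.1 q) fun h => hfU (h ▸ hg2)⟩
      · have p' : f.2 ≤ g.1 := not_lt.1 p
        have q' : g.2 < f.2 := q
        exact absurd (lt_of_le_of_lt p' hg12) (not_lt.2 (le_of_lt q'))
    have c2 : g.1 ≤ f.1 := by
      by_contra hcon
      exact hnc f hfE g hgE ⟨not_le.1 hcon, c.1, c.2⟩
    refine hmax g hgE ⟨⟨c2, le_of_lt c.2, fun h => ?_⟩, hgN⟩
    rw [h] at c
    exact absurd c.2 (lt_irrefl _)

/-- the faces inside `U` -/
def FaceIn (E : Finset (Fin n × Fin n)) (U : Finset (Fin n)) (e : Fin n × Fin n) : Prop :=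
  Clo E e ∧ e.1 ∈ U ∧ e.2 ∈ U ∧ ∀ f, Cov E f e → f.1 ∈ U ∧ f.2 ∈ U

/-- edges inside `U` and inside the half-open interval of `e` -/
def Su (E : Finset (Fin n × Fin n)) (U : Finset (Fin n)) (e : Fin n × Fin n) :
    Set (Fin n × Fin n) := {f | f ∈ E ∧ f.1 ∈ U ∧ f.2 ∈ U ∧ e.1 < f.1 ∧ f.2 ≤ e.2}

/-- the vertices of the interval of `e` which are connected with the right end -/
noncomputable def Xs (E : Finset (Fin n × Fin n)) (U : Finset (Fin n)) (e : Fin n × Fin n) :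
    Finset (Fin n) := univ.filter fun x => e.1 < x ∧ x ≤ e.2 ∧ Cn (Su E U e) x e.2

theorem mem_Xs {U : Finset (Fin n)} {e : Fin n × Fin n} {x : Fin n} :
    x ∈ Xs E U e ↔ e.1 < x ∧ x ≤ e.2 ∧ Cn (Su E U e) x e.2 := by simp [Xs]

include hlt in
theorem xs_nonempty {U : Finset (Fin n)} {e : Fin n × Fin n} (he : e ∈ E) :
    (Xs E U e).Nonempty := ⟨e.2, mem_Xs.2 ⟨hlt e he, le_refl _, Cn.refl _ _⟩⟩

theorem xs_mem_U {U : Finset (Fin n)} {e : Fin n × Fin n} (h2 : e.2 ∈ U) {x : Fin n}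
    (hx : x ∈ Xs E U e) : x ∈ U := by
  by_contra hxU
  have h := (mem_Xs.1 hx).2.2
  obtain ⟨g, hg, h3⟩ := h.symm.cross {y | y ∈ U} h2 hxU
  rcases h3 with ⟨p, q⟩ | ⟨p, q⟩
  · exact q hg.2.2.1
  · exact p hg.2.1

include hlt hnc in
/-- one half of the injectivity -/
theorem inj_aux {U : Finset (Fin n)} {e e' : Fin n × Fin n} (he : e ∈ E) (he' : e' ∈ E)
    (h1 : e.1 ∈ U) (h2 : e.2 ∈ U) (h1' : e'.1 ∈ U) (h2' : e'.2 ∈ U) (hF : ¬ FaceIn E U e)
    {m : Fin n} (hm : m ∈ Xs E U e) (hm' : m ∈ Xs E U e')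
    (hmin : ∀ x ∈ Xs E U e, m ≤ x) (hle : e.1 ≤ e'.1) (hle2 : e.1 = e'.1 → e'.2 ≤ e.2) :
    e = e' := by
  rw [mem_Xs] at hm hm'
  have he12 := hlt e he
  have he12' := hlt e' he'
  by_cases hlt1 : e.1 < e'.1
  · exfalso
    have c1 : e'.1 < e.2 := lt_of_lt_of_le hm'.1 hm.2.1
    have c2 : e'.2 ≤ e.2 := by
      by_contra hcon
      exact hnc e he e' he' ⟨hlt1, c1, not_le.1 hcon⟩
    have hsub : Su E U e' ⊆ Su E U e := by
      rintro f ⟨p1, p2, p3, p4, p5⟩
      exact ⟨p1, p2, p3, hlt1.trans p4, p5.trans c2⟩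
    have c3 : Cn (Su E U e) m e'.2 := hm'.2.2.mono hsub
    have c4 : Cn (Su E U e) e'.1 e'.2 := Cn.edge (e := e') ⟨he', h1', h2', hlt1, c2⟩
    have c5 : e'.1 ∈ Xs E U e := mem_Xs.2 ⟨hlt1, le_of_lt c1, (c4.trans c3.symm).trans hm.2.2⟩
    exact absurd (hmin _ c5) (not_le.2 hm'.1)
  · have heq : e.1 = e'.1 := le_antisymm hle (not_lt.1 hlt1)
    have c2 := hle2 heq
    by_contra hne
    have c3 : e'.2 ≠ e.2 := fun h => hne (Prod.ext heq h.symm)
    have c4 : e'.2 < e.2 := lt_of_le_of_ne c2 c3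
    apply hF
    have hsub : Su E U e' ⊆ Su E U e := by
      rintro f ⟨p1, p2, p3, p4, p5⟩
      exact ⟨p1, p2, p3, heq ▸ p4, p5.trans c2⟩
    have hsub2 : Su E U e ⊆ {f | f ∈ E ∧ Nst f e ∧ f.1 ∈ U ∧ f.2 ∈ U} := by
      rintro f ⟨p1, p2, p3, p4, p5⟩
      refine ⟨p1, ⟨le_of_lt p4, p5, fun h => ?_⟩, p2, p3⟩
      rw [h] at p4
      exact absurd p4 (lt_irrefl _)
    have c5 : Cn {f | f ∈ E ∧ Nst f e ∧ f.1 ∈ U ∧ f.2 ∈ U} e.1 e.2 := by
      have d1 : Cn {f | f ∈ E ∧ Nst f e ∧ f.1 ∈ U ∧ f.2 ∈ U} e'.1 e'.2 :=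
        Cn.edge (e := e') ⟨he', ⟨le_of_eq heq, c2, fun h => hne h.symm⟩, h1', h2'⟩
      rw [heq]
      exact (d1.trans ((hm'.2.2.mono hsub).mono hsub2).symm).trans (hm.2.2.mono hsub2)
    refine ⟨⟨he, c5.mono ?_⟩, h1, h2, fun f hf => face_sub hlt hnc h1 h2 c5 hf⟩
    rintro f ⟨p1, p2, -, -⟩
    exact ⟨p1, p2⟩

include hlt hnc in
/-- a nonempty set `U` has at least as many vertices as edges which are not faces inside `U`, plus one -/
theorem forest {U : Finset (Fin n)} (hU : U.Nonempty) :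
    #{e ∈ E | e.1 ∈ U ∧ e.2 ∈ U ∧ ¬ FaceIn E U e} + 1 ≤ #U := by
  let u0 := U.min' hU
  have hcard : #(U.erase u0) = #U - 1 := card_erase_of_mem (U.min'_mem hU)
  have hpos : 0 < #U := hU.card_pos
  suffices h : #{e ∈ E | e.1 ∈ U ∧ e.2 ∈ U ∧ ¬ FaceIn E U e} ≤ #(U.erase u0) by omega
  let φ : Fin n × Fin n → Fin n := fun e => if h : (Xs E U e).Nonempty then (Xs E U e).min' h
    else e.2
  have hφ : ∀ e (he : e ∈ E), φ e ∈ Xs E U e ∧ ∀ x ∈ Xs E U e, φ e ≤ x := by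
    intro e he
    have h := xs_nonempty hlt (U := U) he
    have : φ e = (Xs E U e).min' h := dif_pos h
    rw [this]
    exact ⟨min'_mem _ _, fun x hx => min'_le _ _ hx⟩
  refine card_le_card_of_injOn φ ?_ ?_
  · intro e he
    rw [mem_coe, mem_filter] at he
    obtain ⟨he, h1, h2, -⟩ := he
    obtain ⟨c1, -⟩ := hφ e he
    rw [mem_coe, mem_erase]
    refine ⟨?_, xs_mem_U h2 c1⟩
    have c2 := (mem_Xs.1 c1).1
    have c3 : u0 ≤ e.1 := U.min'_le _ h1
    exact (lt_of_le_of_lt c3 c2).ne'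
  · intro e he e' he' heq
    rw [mem_coe, mem_filter] at he he'
    obtain ⟨he, h1, h2, h3⟩ := he
    obtain ⟨he', h1', h2', h3'⟩ := he'
    obtain ⟨c1, c2⟩ := hφ e he
    obtain ⟨c1', c2'⟩ := hφ e' he'
    rw [← heq] at c1' c2'
    rcases lt_trichotomy e.1 e'.1 with h | h | h
    · exact inj_aux hlt hnc he he' h1 h2 h1' h2' h3 c1 c1' c2 (le_of_lt h)
        (fun hh => absurd hh h.ne)
    · rcases le_total e'.2 e.2 with h' | h'
      · exact inj_aux hlt hnc he he' h1 h2 h1' h2' h3 c1 c1' c2 (le_of_eq h) (fun _ => h')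
      · exact (inj_aux hlt hnc he' he h1' h2' h1 h2 h3' c1' c1 c2' (le_of_eq h.symm)
          (fun _ => h')).symm
    · exact (inj_aux hlt hnc he' he h1' h2' h1 h2 h3' c1' c1 c2' (le_of_lt h)
        (fun hh => absurd hh h.ne)).symm

include hlt hnc in
/-- labels which are constant on the edges of a class are constant on the edges generated by faces -/
theorem lab_ext {L : Type} (κ : Fin n → L) (B : Fin n × Fin n → Prop)
    (h : ∀ e ∈ E, B e → κ e.1 = κ e.2 ∨ (Clo E e ∧ ∀ f, Cov E f e → B f)) :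
    ∀ (m : ℕ) (e : Fin n × Fin n), len e ≤ m → e ∈ E → B e → κ e.1 = κ e.2 := by
  intro m
  induction m with
  | zero =>
    intro e hm he _
    exfalso
    have : e.1.1 < e.2.1 := hlt e he
    unfold len at hm
    omega
  | succ m ih =>
    intro e hm he hB
    rcases h e he hB with h1 | ⟨h1, h2⟩
    · exact h1
    · refine (clo_path hlt hnc h1).label κ ?_
      intro f hf
      have h3 := len_lt (hlt f hf.1) hf.2.2.1
      exact ih f (by omega) hf.1 (h2 f hf)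

/-- the faces at an edge -/
noncomputable def Fc (E : Finset (Fin n × Fin n)) (j : {e // e ∈ E}) : Finset {e // Clo E e} :=
  univ.filter fun e => e.1 = j.1 ∨ Cov E j.1 e.1

theorem mem_Fc {j : {e // e ∈ E}} {e : {e // Clo E e}} :
    e ∈ Fc E j ↔ (e.1 = j.1 ∨ Cov E j.1 e.1) := by simp [Fc]

theorem card_J : Fintype.card {e // e ∈ E} = #E := Fintype.card_coe E

theorem card_PP : Fintype.card {e // Clo E e} = #{e ∈ E | Clo E e} := by
  rw [Fintype.card_subtype]
  congr 1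
  ext e
  simp only [mem_filter, mem_univ, true_and]
  exact ⟨fun h => ⟨h.1, h⟩, fun h => h.2⟩

include hlt hnc in
theorem euler (hn : 0 < n) (hconn : ∀ x y, Cn {e | e ∈ E} x y) :
    n + Fintype.card {e // Clo E e} = Fintype.card {e // e ∈ E} + 1 := by
  rw [card_J, card_PP]
  have hspl : #E = #{e ∈ E | Clo E e} + #{e ∈ E | ¬ Clo E e} :=
    (card_filter_add_card_filter_not _).symm
  have h1 : n ≤ 1 + #{e ∈ E | ¬ Clo E e} := by
    obtain ⟨L, _, κ, c1, c2, c3⟩ := labels (E.filter fun e => ¬ Clo E e)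
    rw [Fintype.card_fin] at c3
    have c4 := lab_ext hlt hnc κ (fun _ => True) (by
      intro e he _
      by_cases hc : Clo E e
      · exact Or.inr ⟨hc, fun _ _ => trivial⟩
      · exact Or.inl (c2 e (mem_filter.2 ⟨he, hc⟩)))
    have c5 : ∀ x y, κ x = κ y := fun x y => (hconn x y).label κ
      (fun e he => c4 (len e) e (le_refl _) he trivial)
    have c6 : Fintype.card L ≤ 1 := by
      rw [Fintype.card_le_one_iff]
      intro a b
      obtain ⟨x, rfl⟩ := c1 a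
      obtain ⟨y, rfl⟩ := c1 b
      exact c5 x y
    omega
  have h2 : #{e ∈ E | ¬ Clo E e} + 1 ≤ n := by
    have hU : (univ : Finset (Fin n)).Nonempty := ⟨⟨0, hn⟩, mem_univ _⟩
    have := forest hlt hnc hU
    rw [card_univ, Fintype.card_fin] at this
    refine le_trans (Nat.add_le_add_right (card_le_card ?_) 1) this
    intro e he
    rw [mem_filter] at he ⊢
    exact ⟨he.1, mem_univ _, mem_univ _, fun h => he.2 h.1⟩
  omega

include hlt hnc in
/-- the certificate of a connected non-crossing graph -/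
theorem cert_nc (hn : 0 < n) (hconn : ∀ x y, Cn {e | e ∈ E} x y) :
    Cert (I := Fin n) (J := {e // e ∈ E}) (PP := {e // Clo E e}) (fun j => j.1.1)
      (fun j => j.1.2) (Fc E) := by
  have heu := euler hlt hnc hn hconn
  refine ⟨by rw [Fintype.card_fin]; exact heu, ?_, ?_⟩
  · intro F Q
    let S' : Finset {e // e ∈ E} := univ.filter fun j => ¬ (j ∈ F ∧ Fc E j ⊆ Q) ∧
      ¬ (∃ hc : Clo E j.1, (⟨j.1, hc⟩ : {e // Clo E e}) ∉ Q)
    obtain ⟨L, hL, κ, c1, c2, c3⟩ := labels (S'.image Subtype.val)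
    rw [Fintype.card_fin, card_image_of_injective _ Subtype.val_injective] at c3
    refine ⟨L, hL, κ, c1, ?_, ?_⟩
    · have c4 := lab_ext hlt hnc κ (fun e => ∀ h : e ∈ E, ¬ ((⟨e, h⟩ : {e // e ∈ E}) ∈ F ∧
        Fc E ⟨e, h⟩ ⊆ Q)) (by
        intro e he hB
        by_cases hc : ∃ hc : Clo E e, (⟨e, hc⟩ : {e // Clo E e}) ∉ Q
        · obtain ⟨hc, hcQ⟩ := hc
          refine Or.inr ⟨hc, fun f hf hfE hcon => hcQ (hcon.2 ?_)⟩
          exact mem_Fc.2 (Or.inr hf)
        · refine Or.inl (c2 e (mem_image.2 ⟨⟨e, he⟩, ?_, rfl⟩))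
          rw [mem_filter]
          exact ⟨mem_univ _, hB he, hc⟩)
      rintro ⟨e, he⟩ hj
      exact c4 (len e) e (le_refl _) he (fun _ => hj)
    · have hb : #{j : {e // e ∈ E} | ∃ hc : Clo E j.1, (⟨j.1, hc⟩ : {e // Clo E e}) ∉ Q} =
          #(Qᶜ) := by
        refine card_bij (fun j hj => ⟨j.1, (mem_filter.1 hj).2.choose⟩) ?_ ?_ ?_
        · intro j hj
          rw [mem_compl]
          exact (mem_filter.1 hj).2.choose_spec
        · intro j _ j' _ hjj
          rw [Subtype.mk.injEq] at hjj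
          exact Subtype.ext hjj
        · rintro ⟨e, he⟩ heQ
          refine ⟨⟨e, he.1⟩, ?_, rfl⟩
          rw [mem_filter]
          exact ⟨mem_univ _, he, mem_compl.1 heQ⟩
      have hpart : #{j : {e // e ∈ E} | j ∈ F ∧ Fc E j ⊆ Q} +
          #{j : {e // e ∈ E} | ∃ hc : Clo E j.1, (⟨j.1, hc⟩ : {e // Clo E e}) ∉ Q} + #S' =
          Fintype.card {e // e ∈ E} := by
        rw [← card_univ (α := {e // e ∈ E}), card_eq_sum_ones univ]
        rw [card_filter, card_filter, card_filter, ← sum_add_distrib, ← sum_add_distrib]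
        refine sum_congr rfl fun j _ => ?_
        by_cases h2 : ∃ hc : Clo E j.1, (⟨j.1, hc⟩ : {e // Clo E e}) ∉ Q
        · have h1 : ¬ (j ∈ F ∧ Fc E j ⊆ Q) := by
            rintro ⟨-, h3⟩
            obtain ⟨hc, hcQ⟩ := h2
            exact hcQ (h3 (mem_Fc.2 (Or.inl rfl)))
          rw [if_neg h1, if_pos h2, if_neg (fun h => h.2 h2)]
        · by_cases h1 : j ∈ F ∧ Fc E j ⊆ Q
          · rw [if_pos h1, if_neg h2, if_neg (fun h => h.1 h1)]
          · rw [if_neg h1, if_neg h2, if_pos ⟨h1, h2⟩]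
      rw [card_compl] at hb
      have hQle : #Q ≤ Fintype.card {e // Clo E e} := card_le_univ Q
      have key : #{j : {e // e ∈ E} | j ∈ F ∧ Fc E j ⊆ Q} + 1 ≤ #Q + Fintype.card L := by
        omega
      convert key
  · intro T hT
    have hU : (Tᶜ).Nonempty := by
      rw [nonempty_iff_ne_empty]
      intro h
      apply hT
      rw [compl_eq_empty_iff] at h
      exact h
    refine ⟨univ.filter fun e => ¬ FaceIn E Tᶜ e.1, ?_⟩
    have hfor := forest hlt hnc hU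
    have e1 : #{j : {e // e ∈ E} | (j.1.1 ∈ T ∨ j.1.2 ∈ T) ∧
        Fc E j ⊆ univ.filter fun e => ¬ FaceIn E Tᶜ e.1} =
        #{e ∈ E | ¬ (e.1 ∈ Tᶜ ∧ e.2 ∈ Tᶜ)} := by
      refine card_bij (fun j _ => j.1) ?_ (fun j _ j' _ h => Subtype.ext h) ?_
      · intro j hj
        rw [mem_filter] at hj ⊢
        refine ⟨j.2, ?_⟩
        rw [mem_compl, mem_compl]
        rintro ⟨h1, h2⟩
        rcases hj.2.1 with h | h
        · exact h1 h
        · exact h2 h
      · intro e he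
        rw [mem_filter, mem_compl, mem_compl] at he
        refine ⟨⟨e, he.1⟩, ?_, rfl⟩
        rw [mem_filter]
        refine ⟨mem_univ _, ?_, ?_⟩
        · by_contra hcon
          push Not at hcon
          exact he.2 hcon
        · intro f hf
          rw [mem_Fc] at hf
          rw [mem_filter]
          refine ⟨mem_univ _, fun hF => he.2 ?_⟩
          rw [← mem_compl, ← mem_compl]
          rcases hf with h | h
          · rw [h] at hF
            exact ⟨hF.2.1, hF.2.2.1⟩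
          · exact hF.2.2.2 e h
    have e2 : #{e ∈ E | ¬ (e.1 ∈ Tᶜ ∧ e.2 ∈ Tᶜ)} + #{e ∈ E | e.1 ∈ Tᶜ ∧ e.2 ∈ Tᶜ ∧
        ¬ FaceIn E Tᶜ e} + #{e ∈ E | FaceIn E Tᶜ e} = #E := by
      rw [card_eq_sum_ones E, card_filter, card_filter, card_filter, ← sum_add_distrib,
        ← sum_add_distrib]
      refine sum_congr rfl fun e he => ?_
      by_cases h1 : e.1 ∈ Tᶜ ∧ e.2 ∈ Tᶜ
      · by_cases h2 : FaceIn E Tᶜ e
        · rw [if_neg (not_not.2 h1), if_neg (fun h => h.2.2 h2), if_pos h2]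
        · rw [if_neg (not_not.2 h1), if_pos ⟨h1.1, h1.2, h2⟩, if_neg h2]
      · rw [if_pos h1, if_neg (fun h => h1 ⟨h.1, h.2.1⟩), if_neg (fun h => h1 ⟨h.2.1, h.2.2.1⟩)]
    have e3 : #(univ.filter fun e : {e // Clo E e} => ¬ FaceIn E Tᶜ e.1) +
        #{e ∈ E | FaceIn E Tᶜ e} = Fintype.card {e // Clo E e} := by
      have h1 : #{e ∈ E | FaceIn E Tᶜ e} =
          #(univ.filter fun e : {e // Clo E e} => FaceIn E Tᶜ e.1) := by
        symm
        refine card_bij (fun j _ => j.1) ?_ (fun j _ j' _ h => Subtype.ext h) ?_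
        · intro j hj
          rw [mem_filter] at hj ⊢
          exact ⟨j.2.1, hj.2⟩
        · intro e he
          rw [mem_filter] at he
          exact ⟨⟨e, he.2.1⟩, by rw [mem_filter]; exact ⟨mem_univ _, he.2⟩, rfl⟩
      rw [h1, add_comm, card_filter_add_card_filter_not, card_univ]
    have e4 : #(Tᶜ) = n - #T := by
      rw [card_compl, Fintype.card_fin]
    have e5 : #T ≤ n := by
      have := card_le_univ T
      rwa [Fintype.card_fin] at this
    rw [card_J] at heu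
    have key : #T + #(univ.filter fun e : {e // Clo E e} => ¬ FaceIn E Tᶜ e.1) ≤
        #{j : {e // e ∈ E} | (j.1.1 ∈ T ∨ j.1.2 ∈ T) ∧
        Fc E j ⊆ univ.filter fun e => ¬ FaceIn E Tᶜ e.1} := by
      rw [e1]
      omega
    convert key

end nc

end TS9e
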