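import Pool.Agent.Lib_MP_9e7d46_ts.Hyper

/-!
# Slots from a system of full hyperedges

`V` with a preorder `R`, integers `y v` with sum `0`; `r v` natural numbers (the reductions, `1` for one vertex
of every source class); `J` full hyperedges, every one with `2k` copies, consisting of the vertices of
`Hc j` and of the extra nodes in `Hp j`.
-/

set_option autoImplicit false
set_option linter.unusedSectionVars false

namespace TS9e
open Finset Classical OS9e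

/-- the hypergraph slot theorem for an arbitrary set `N` of nodes -/
theorem hyper' {k : ℕ} (hk : 3 ≤ k) {X N : Type} [Fintype X] [Fintype N] (x : X → ℕ)
    (M : X → Finset N)
    (hsp : ∀ Y : Finset N, Y.Nonempty → ∀ Q : Finset X, (∀ v ∈ Q, M v ⊆ Y) →
      ∑ v ∈ Q, x v + 2 * k ≤ 2 * k * #Y)
    (htot : ∑ v, x v + 2 * k = 2 * k * Fintype.card N)
    (μ : X → X) (hμ : ∀ v, μ (μ v) = v) (hodd : ∀ v, Odd (x (μ v)) ↔ Odd (x v)) :
    ∃ ε : X → ℤ, (∀ v, ε v = 1 ∨ ε v = -1) ∧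
      (∀ v, Odd (x v) → μ v ≠ v → ε (μ v) = - ε v) ∧
      ∀ Y : Finset N, Y.Nonempty → ∀ Q : Finset X, (∀ v ∈ Q, M v ⊆ Y) →
        |∑ v ∈ Q, if Odd (x v) then ε v else 0| + ((∑ v ∈ Q, x v : ℕ) : ℤ) + 2 * k ≤
          2 * k * #Y := by
  obtain ⟨m, hm⟩ : ∃ m, Fintype.card N = m + 1 := by
    rcases hN : Fintype.card N with _ | m
    · rw [hN] at htot
      omega
    · exact ⟨m, rfl⟩
  let e : N ≃ Option (Fin m) := Fintype.equivOfCardEq (by
    rw [hm, Fintype.card_option, Fintype.card_fin])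
  obtain ⟨ε, h1, h2, h3⟩ := hyper hk (W := Fin m) x (fun v => (M v).map e.toEmbedding) (by
    intro Y hY Q hQ
    have h := hsp (Y.map e.symm.toEmbedding) (hY.map) Q (by
      intro v hv p hp
      rw [mem_map]
      refine ⟨e p, hQ v hv ?_, by simp⟩
      rw [mem_map]
      exact ⟨p, hp, rfl⟩)
    rw [card_map] at h
    exact h) (by
    rw [Fintype.card_fin]
    rw [hm, Nat.mul_add] at htot
    omega) μ hμ hodd
  refine ⟨ε, h1, h2, fun Y hY Q hQ => ?_⟩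
  have h := h3 (Y.map e.toEmbedding) hY.map Q (fun v hv => map_subset_map.2 (hQ v hv))
  rw [card_map] at h
  exact h

variable {V : Type} [Fintype V]

/-- closed sets of a preorder -/
def Cl (R : V → V → Prop) (Z : Finset V) : Prop := ∀ u ∈ Z, ∀ v, R u v → v ∈ Z

theorem system {k : ℕ} (hk : 3 ≤ k) {J PP : Type} [Fintype J] [Fintype PP]
    {R : V → V → Prop} (hr : ∀ v, R v v) (ht : ∀ u v w, R u v → R v w → R u w) (y : V → ℤ)
    (r : V → ℕ) (Hc : J → Finset V) (Hp : J → Finset PP)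
    (hne : ∀ j, (Hc j).Nonempty ∨ (Hp j).Nonempty)
    (hcard : ∑ v, r v + Fintype.card PP = Fintype.card J + 1) (hy0 : ∑ v, y v = 0)
    (hvalid : ∀ (Z : Finset V) (Q : Finset PP), Cl R Z → (Z.Nonempty ∨ Q.Nonempty) →
      ∑ v ∈ Z, y v + 2 * k * (#{j | Hc j ⊆ Z ∧ Hp j ⊆ Q} + 1) ≤ 2 * k * (∑ v ∈ Z, (r v : ℤ) + #Q))
    (μ : V → V) (hμ : ∀ v, μ (μ v) = v) (hodd : ∀ v, Odd (y (μ v)) ↔ Odd (y v)) :
    ∃ ε : V → ℤ, (∀ v, ε v = 1 ∨ ε v = -1) ∧
      (∀ v, Odd (y v) → μ v ≠ v → ε (μ v) = - ε v) ∧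
      ∀ (Z : Finset V) (Q : Finset PP), Cl R Z → (Z.Nonempty ∨ Q.Nonempty) →
        |∑ v ∈ Z, if Odd (y v) then ε v else 0| + ∑ v ∈ Z, y v +
          2 * k * (#{j | Hc j ⊆ Z ∧ Hp j ⊆ Q} + 1) ≤ 2 * k * (∑ v ∈ Z, (r v : ℤ) + #Q) := by
  obtain ⟨c, hc0, hc⟩ : ∃ c : ℕ, 0 < c ∧ ∀ v, 0 ≤ y v + 2 * k * c - 2 * k * r v := by
    refine ⟨(∑ v, |y v|).toNat + ∑ v, r v + 1, Nat.succ_pos _, fun v => ?_⟩
    have h1 : |y v| ≤ ∑ v, |y v| := single_le_sum (fun u _ => abs_nonneg (y u)) (mem_univ v)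
    have h2 : -|y v| ≤ y v := neg_abs_le _
    have h3 : ((∑ v, |y v|).toNat : ℤ) = ∑ v, |y v| :=
      Int.toNat_of_nonneg (sum_nonneg fun u _ => abs_nonneg _)
    have h6 : r v ≤ ∑ v, r v := single_le_sum (fun u _ => Nat.zero_le (r u)) (mem_univ v)
    have h7 : (r v : ℤ) ≤ ((∑ v, r v : ℕ) : ℤ) := by exact_mod_cast h6
    have h4 : (0 : ℤ) ≤ ∑ v, |y v| := sum_nonneg fun u _ => abs_nonneg _
    have h5 : (3 : ℤ) ≤ k := by exact_mod_cast hk
    have h8 : (((∑ v, |y v|).toNat + ∑ v, r v + 1 : ℕ) : ℤ) =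
        ∑ v, |y v| + ((∑ v, r v : ℕ) : ℤ) + 1 := by
      rw [Nat.cast_add, Nat.cast_add, h3, Nat.cast_one]
    rw [h8]
    generalize ((∑ v, r v : ℕ) : ℤ) = s at *
    nlinarith
  obtain ⟨x0, hx0⟩ : ∃ x : V → ℕ, ∀ v, (x v : ℤ) = y v + 2 * k * c - 2 * k * r v :=
    ⟨fun v => (y v + 2 * k * c - 2 * k * r v).toNat, fun v => Int.toNat_of_nonneg (hc v)⟩
  let x : V ⊕ J → ℕ := Sum.elim x0 (fun _ => 2 * k)
  let M : V ⊕ J → Finset ((V × Fin c) ⊕ PP) := Sum.elim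
    (fun v => univ.filter fun p => ∃ u i, p = Sum.inl (u, i) ∧ R v u)
    (fun j => univ.filter fun p => (∃ u i, p = Sum.inl (u, i) ∧ ∃ v ∈ Hc j, R v u) ∨
      ∃ q ∈ Hp j, p = Sum.inr q)
  have hxZ : ∀ Z : Finset V, ((∑ v ∈ Z, x0 v : ℕ) : ℤ) =
      ∑ v ∈ Z, y v + 2 * k * (c * #Z) - 2 * k * ∑ v ∈ Z, (r v : ℤ) := by
    intro Z
    push_cast
    rw [sum_congr rfl fun v _ => hx0 v, sum_sub_distrib, sum_add_distrib, sum_const,
      nsmul_eq_mul, mul_sum]
    ring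
  have hpar : ∀ v, Odd (x0 v) ↔ Odd (y v) := by
    intro v
    rw [← Int.odd_coe_nat, hx0]
    have : Even (2 * (k : ℤ) * c - 2 * k * r v) := ⟨k * c - k * r v, by ring⟩
    have h : y v + 2 * k * c - 2 * k * r v = y v + (2 * (k : ℤ) * c - 2 * k * r v) := by ring
    rw [h, Int.odd_add]
    simp [this]
  obtain ⟨ε, h1, h2, h3⟩ := hyper' hk x M (by
    intro Y hY Q hQ
    let Z : Finset V := univ.filter fun v => ∀ u, R v u → ∀ i, Sum.inl (u, i) ∈ Y
    let Q' : Finset PP := univ.filter fun q => Sum.inr q ∈ Y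
    have hZc : Cl R Z := by
      intro u hu v huv
      rw [mem_filter] at hu ⊢
      exact ⟨mem_univ _, fun w hw => hu.2 w (ht _ _ _ huv hw)⟩
    have hQ1 : ∀ v, Sum.inl v ∈ Q → v ∈ Z := by
      intro v hv
      rw [mem_filter]
      refine ⟨mem_univ _, fun u hu i => hQ _ hv ?_⟩
      show Sum.inl (u, i) ∈ univ.filter fun p => ∃ u i, p = Sum.inl (u, i) ∧ R v u
      rw [mem_filter]
      exact ⟨mem_univ _, u, i, rfl, hu⟩
    have hQ2 : ∀ j, Sum.inr j ∈ Q → Hc j ⊆ Z ∧ Hp j ⊆ Q' := by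
      intro j hj
      have hsub := hQ _ hj
      refine ⟨fun v hv => ?_, fun q hq => ?_⟩
      · rw [mem_filter]
        refine ⟨mem_univ _, fun u hu i => hsub ?_⟩
        show Sum.inl (u, i) ∈ univ.filter fun p => (∃ u i, p = Sum.inl (u, i) ∧ ∃ v ∈ Hc j, R v u) ∨
          ∃ q ∈ Hp j, p = Sum.inr q
        rw [mem_filter]
        exact ⟨mem_univ _, Or.inl ⟨u, i, rfl, v, hv, hu⟩⟩
      · rw [mem_filter]
        refine ⟨mem_univ _, hsub ?_⟩
        show Sum.inr q ∈ univ.filter fun p => (∃ u i, p = Sum.inl (u, i) ∧ ∃ v ∈ Hc j, R v u) ∨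
          ∃ q ∈ Hp j, p = Sum.inr q
        rw [mem_filter]
        exact ⟨mem_univ _, Or.inr ⟨q, hq, rfl⟩⟩
    have hsum : ∑ p ∈ Q, x p ≤ ∑ v ∈ Z, x0 v + 2 * k * #{j | Hc j ⊆ Z ∧ Hp j ⊆ Q'} := by
      have e1 : Q ⊆ Z.map ⟨Sum.inl, Sum.inl_injective⟩ ∪
          ((univ.filter fun j => Hc j ⊆ Z ∧ Hp j ⊆ Q').map ⟨Sum.inr, Sum.inr_injective⟩ :
            Finset (V ⊕ J)) := by
        rintro (v | j) hp
        · exact mem_union_left _ (mem_map.2 ⟨v, hQ1 v hp, rfl⟩)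
        · exact mem_union_right _ (mem_map.2 ⟨j, by
            rw [mem_filter]; exact ⟨mem_univ _, hQ2 j hp⟩, rfl⟩)
      refine (sum_le_sum_of_subset e1).trans ?_
      rw [sum_union (by
        rw [disjoint_left]
        rintro a ha hb
        rw [mem_map] at ha hb
        obtain ⟨v, -, rfl⟩ := ha
        obtain ⟨j, -, hj⟩ := hb
        exact absurd hj (by simp)), sum_map, sum_map]
      have e2 : ∑ j ∈ univ.filter (fun j => Hc j ⊆ Z ∧ Hp j ⊆ Q'),
          x ((⟨Sum.inr, Sum.inr_injective⟩ : J ↪ V ⊕ J) j) =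
          2 * k * #{j | Hc j ⊆ Z ∧ Hp j ⊆ Q'} := by
        have : ∀ j, x ((⟨Sum.inr, Sum.inr_injective⟩ : J ↪ V ⊕ J) j) = 2 * k := fun j => rfl
        simp only [this, sum_const, smul_eq_mul]
        ring
      rw [e2]
      exact le_refl _
    have hYge : c * #Z + #Q' ≤ #Y := by
      have e1 : ((Z ×ˢ (univ : Finset (Fin c))).map ⟨Sum.inl, Sum.inl_injective⟩ ∪
          (Q'.map ⟨Sum.inr, Sum.inr_injective⟩ : Finset ((V × Fin c) ⊕ PP))) ⊆ Y := by
        intro p hp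
        rw [mem_union, mem_map, mem_map] at hp
        rcases hp with ⟨⟨u, i⟩, hu, rfl⟩ | ⟨q, hq, rfl⟩
        · rw [mem_product] at hu
          exact (mem_filter.1 hu.1).2 u (hr u) i
        · exact (mem_filter.1 hq).2
      have e2 := card_le_card e1
      rw [card_union_of_disjoint (by
        rw [disjoint_left]
        rintro a ha hb
        rw [mem_map] at ha hb
        obtain ⟨v, -, rfl⟩ := ha
        obtain ⟨j, -, hj⟩ := hb
        exact absurd hj (by simp)), card_map, card_map, card_product, card_univ,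
        Fintype.card_fin] at e2
      rw [mul_comm]
      exact e2
    by_cases hcase : Z.Nonempty ∨ Q'.Nonempty
    · have hv := hvalid Z Q' hZc hcase
      have hx := hxZ Z
      have g1 : ((∑ p ∈ Q, x p : ℕ) : ℤ) ≤ ((∑ v ∈ Z, x0 v : ℕ) : ℤ) +
          2 * k * #{j | Hc j ⊆ Z ∧ Hp j ⊆ Q'} := by exact_mod_cast hsum
      have g2 : ((c : ℤ) * #Z + #Q') ≤ #Y := by exact_mod_cast hYge
      have g4 : (2 * (k : ℤ)) * (c * #Z + #Q') ≤ 2 * k * #Y :=
        mul_le_mul_of_nonneg_left g2 (by positivity)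
      rw [hx] at g1
      generalize ∑ p ∈ Q, x p = a at *
      have g3 : ((a + 2 * k : ℕ) : ℤ) ≤ ((2 * k * #Y : ℕ) : ℤ) := by
        push_cast
        nlinarith
      exact_mod_cast g3
    · push Not at hcase
      have hQe : Q = ∅ := by
        rw [eq_empty_iff_forall_notMem]
        rintro (v | j) hp
        · have := hQ1 v hp
          rw [hcase.1] at this
          exact absurd this (by simp)
        · obtain ⟨a1, a2⟩ := hQ2 j hp
          rw [hcase.1] at a1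
          rw [hcase.2] at a2
          rcases hne j with ⟨b, hb⟩ | ⟨b, hb⟩
          · exact absurd (a1 hb) (by simp)
          · exact absurd (a2 hb) (by simp)
      rw [hQe, sum_empty, zero_add]
      exact Nat.le_mul_of_pos_right _ hY.card_pos) (by
    have e1 := hxZ univ
    have e2 : ∑ p : V ⊕ J, x p = ∑ v, x0 v + 2 * k * Fintype.card J := by
      rw [Fintype.sum_sum_type]
      simp only [x, Sum.elim_inl, Sum.elim_inr, sum_const, card_univ, smul_eq_mul]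
      ring
    rw [e2, Fintype.card_sum, Fintype.card_prod, Fintype.card_fin]
    have e3 : ((∑ v, r v : ℕ) : ℤ) + Fintype.card PP = Fintype.card J + 1 := by
      exact_mod_cast hcard
    zify
    rw [Nat.cast_sum] at e1
    rw [e1, hy0, card_univ]
    rw [Nat.cast_sum] at e3
    have : ∑ v, (r v : ℤ) = Fintype.card J + 1 - Fintype.card PP := by linarith
    rw [this]
    ring) (Sum.map μ id) (by
    rintro (v | j)
    · simp [hμ]
    · simp) (by
    rintro (v | j)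
    · show Odd (x0 (μ v)) ↔ Odd (x0 v)
      rw [hpar, hpar]
      exact hodd v
    · exact Iff.rfl)
  refine ⟨fun v => ε (Sum.inl v), fun v => h1 _, fun v hv hne' => ?_, fun Z Q hZ hZQ => ?_⟩
  · have := h2 (Sum.inl v) ((hpar v).2 hv) (by
      intro hc
      exact hne' (Sum.inl_injective hc))
    exact this
  · let Y : Finset ((V × Fin c) ⊕ PP) := (Z ×ˢ (univ : Finset (Fin c))).map ⟨Sum.inl,
      Sum.inl_injective⟩ ∪ (Q.map ⟨Sum.inr, Sum.inr_injective⟩)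
    let Qs : Finset (V ⊕ J) := Z.map ⟨Sum.inl, Sum.inl_injective⟩ ∪
          ((univ.filter fun j => Hc j ⊆ Z ∧ Hp j ⊆ Q).map ⟨Sum.inr, Sum.inr_injective⟩)
    have hYcard : #Y = c * #Z + #Q := by
      rw [card_union_of_disjoint (by
        rw [disjoint_left]
        rintro a ha hb
        rw [mem_map] at ha hb
        obtain ⟨v, -, rfl⟩ := ha
        obtain ⟨j, -, hj⟩ := hb
        exact absurd hj (by simp)), card_map, card_map, card_product, card_univ,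
        Fintype.card_fin, mul_comm]
    have hYne : Y.Nonempty := by
      rcases hZQ with ⟨v, hv⟩ | ⟨q, hq⟩
      · exact ⟨Sum.inl (v, ⟨0, hc0⟩), mem_union_left _ (mem_map.2 ⟨(v, ⟨0, hc0⟩),
          mem_product.2 ⟨hv, mem_univ _⟩, rfl⟩)⟩
      · exact ⟨Sum.inr q, mem_union_right _ (mem_map.2 ⟨q, hq, rfl⟩)⟩
    have hmemY : ∀ u i, u ∈ Z → Sum.inl (u, i) ∈ Y := fun u i hu =>
      mem_union_left _ (mem_map.2 ⟨(u, i), mem_product.2 ⟨hu, mem_univ _⟩, rfl⟩)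
    have hfin := h3 Y hYne Qs (by
      intro p hp
      rw [mem_union, mem_map, mem_map] at hp
      rcases hp with ⟨v, hv, rfl⟩ | ⟨j, hj, rfl⟩
      · intro q hq
        obtain ⟨u, i, rfl, hu⟩ := (mem_filter.1 hq).2
        exact hmemY u i (hZ v hv u hu)
      · rw [mem_filter] at hj
        intro q hq
        rcases (mem_filter.1 hq).2 with ⟨u, i, rfl, v, hv, hu⟩ | ⟨q, hq', rfl⟩
        · exact hmemY u i (hZ v (hj.2.1 hv) u hu)
        · exact mem_union_right _ (mem_map.2 ⟨q, hj.2.2 hq', rfl⟩))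
    have hdisj : Disjoint (Z.map ⟨Sum.inl, Sum.inl_injective⟩)
        (((univ.filter fun j => Hc j ⊆ Z ∧ Hp j ⊆ Q).map ⟨Sum.inr, Sum.inr_injective⟩ :
          Finset (V ⊕ J))) := by
      rw [disjoint_left]
      rintro a ha hb
      rw [mem_map] at ha hb
      obtain ⟨v, -, rfl⟩ := ha
      obtain ⟨j, -, hj⟩ := hb
      exact absurd hj (by simp)
    rw [sum_union hdisj, sum_union hdisj, sum_map, sum_map, sum_map, sum_map, hYcard] at hfin
    have e1 : ∑ v ∈ Z, (if Odd (x ((⟨Sum.inl, Sum.inl_injective⟩ : V ↪ V ⊕ J) v)) then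
        ε ((⟨Sum.inl, Sum.inl_injective⟩ : V ↪ V ⊕ J) v) else 0) =
        ∑ v ∈ Z, if Odd (y v) then ε (Sum.inl v) else 0 := by
      refine sum_congr rfl fun v _ => ?_
      have : Odd (x ((⟨Sum.inl, Sum.inl_injective⟩ : V ↪ V ⊕ J) v)) ↔ Odd (y v) := hpar v
      simp only [this]
      rfl
    have e2 : ∑ j ∈ univ.filter (fun j => Hc j ⊆ Z ∧ Hp j ⊆ Q),
        (if Odd (x ((⟨Sum.inr, Sum.inr_injective⟩ : J ↪ V ⊕ J) j)) then
        ε ((⟨Sum.inr, Sum.inr_injective⟩ : J ↪ V ⊕ J) j) else 0) = 0 := by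
      refine sum_eq_zero fun j _ => ?_
      rw [if_neg]
      show ¬ Odd (2 * k)
      rw [Nat.not_odd_iff_even]
      exact even_two_mul k
    have e3 : ∑ j ∈ univ.filter (fun j => Hc j ⊆ Z ∧ Hp j ⊆ Q),
        x ((⟨Sum.inr, Sum.inr_injective⟩ : J ↪ V ⊕ J) j) =
        2 * k * #{j | Hc j ⊆ Z ∧ Hp j ⊆ Q} := by
      have : ∀ j, x ((⟨Sum.inr, Sum.inr_injective⟩ : J ↪ V ⊕ J) j) = 2 * k := fun j => rfl
      simp only [this, sum_const, smul_eq_mul]
      ring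
    have e4 : ∑ v ∈ Z, x ((⟨Sum.inl, Sum.inl_injective⟩ : V ↪ V ⊕ J) v) = ∑ v ∈ Z, x0 v := rfl
    rw [e1, e2, add_zero, e3, e4, Nat.cast_add, hxZ] at hfin
    push_cast at hfin
    nlinarith

/-- the number of full hyperedges inside `Z` and `Q` -/
noncomputable def cnt {J PP : Type} [Fintype J] (Hc : J → Finset V) (Hp : J → Finset PP)
    (Z : Finset V) (Q : Finset PP) : ℕ := #{j | Hc j ⊆ Z ∧ Hp j ⊆ Q}

theorem cnt_empty {PP : Type} (Hc : Empty → Finset V) (Hp : Empty → Finset PP)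
    (Z : Finset V) (Q : Finset PP) : cnt Hc Hp Z Q = 0 := by
  unfold cnt
  rw [card_eq_zero, eq_empty_iff_forall_notMem]
  exact fun j => j.elim

theorem cnt_eq {J PP : Type} [Fintype J] (Hc : J → Finset V) (Hp : J → Finset PP)
    (Z : Finset V) (Q : Finset PP) :
    (cnt Hc Hp Z Q : ℤ) = ∑ j, if Hc j ⊆ Z ∧ Hp j ⊆ Q then 1 else 0 := by
  unfold cnt
  rw [card_filter]
  push_cast
  rfl

theorem system' {k : ℕ} (hk : 3 ≤ k) {J PP : Type} [Fintype J] [Fintype PP]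
    {R : V → V → Prop} (hr : ∀ v, R v v) (ht : ∀ u v w, R u v → R v w → R u w) (y : V → ℤ)
    (r : V → ℕ) (Hc : J → Finset V) (Hp : J → Finset PP)
    (hne : ∀ j, (Hc j).Nonempty ∨ (Hp j).Nonempty)
    (hcard : ∑ v, r v + Fintype.card PP = Fintype.card J + 1) (hy0 : ∑ v, y v = 0)
    (hvalid : ∀ (Z : Finset V) (Q : Finset PP), Cl R Z → (Z.Nonempty ∨ Q.Nonempty) →
      ∑ v ∈ Z, y v + 2 * k * (cnt Hc Hp Z Q + 1) ≤ 2 * k * (∑ v ∈ Z, (r v : ℤ) + #Q))
    (μ : V → V) (hμ : ∀ v, μ (μ v) = v) (hodd : ∀ v, Odd (y (μ v)) ↔ Odd (y v)) :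
    ∃ ε : V → ℤ, (∀ v, ε v = 1 ∨ ε v = -1) ∧
      (∀ v, Odd (y v) → μ v ≠ v → ε (μ v) = - ε v) ∧
      ∀ (Z : Finset V) (Q : Finset PP), Cl R Z → (Z.Nonempty ∨ Q.Nonempty) →
        |∑ v ∈ Z, if Odd (y v) then ε v else 0| + ∑ v ∈ Z, y v +
          2 * k * (cnt Hc Hp Z Q + 1) ≤ 2 * k * (∑ v ∈ Z, (r v : ℤ) + #Q) :=
  system hk hr ht y r Hc Hp hne hcard hy0 hvalid μ hμ hodd

end TS9e
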