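import Pool.Agent.Lib_MP_9e7d46_ts.System

/-!
# At most three sources

`V` with a preorder `R` such that every vertex is above one of three vertices; `y` integers with sum `0` and
`y(Z) ≤ -2k` for all closed sets `Z` other than the empty set and `V`. Then the slots can be paired
arbitrarily.
-/

set_option autoImplicit false
set_option linter.unusedSectionVars false

namespace TS9e
open Finset Classical OS9e

variable {V : Type} [Fintype V]

/-- the vertices above `a` -/
noncomputable def Ab (R : V → V → Prop) (a : V) : Finset V := univ.filter fun v => R a v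

theorem mem_Ab {R : V → V → Prop} {a v : V} : v ∈ Ab R a ↔ R a v := by simp [Ab]

variable {R : V → V → Prop} (hr : ∀ v, R v v) (ht : ∀ u v w, R u v → R v w → R u w)

include ht in
theorem cl_Ab (a : V) : Cl R (Ab R a) := by
  intro u hu v huv
  rw [mem_Ab] at hu ⊢
  exact ht _ _ _ hu huv

theorem cl_union {Z Y : Finset V} (h1 : Cl R Z) (h2 : Cl R Y) : Cl R (Z ∪ Y) := by
  intro u hu v huv
  rcases mem_union.1 hu with h | h
  · exact mem_union_left _ (h1 u h v huv)
  · exact mem_union_right _ (h2 u h v huv)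

theorem ab_sub {Z : Finset V} (hZ : Cl R Z) {a : V} (ha : a ∈ Z) : Ab R a ⊆ Z := by
  intro v hv
  exact hZ a ha v (mem_Ab.1 hv)

/-- the hypotheses on the integers -/
structure Good (R : V → V → Prop) (y : V → ℤ) (k : ℕ) : Prop where
  zero : ∑ v, y v = 0
  le : ∀ Z : Finset V, Z.Nonempty → Z ≠ univ → Cl R Z → ∑ v ∈ Z, y v ≤ -(2 * k : ℤ)

/-- the conclusion -/
def Slots (R : V → V → Prop) (y : V → ℤ) (k : ℕ) (μ : V → V) : Prop :=
  ∃ ε : V → ℤ, (∀ v, ε v = 1 ∨ ε v = -1) ∧
    (∀ v, Odd (y v) → μ v ≠ v → ε (μ v) = - ε v) ∧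
    ∀ Z : Finset V, Z.Nonempty → Z ≠ univ → Cl R Z →
      |∑ v ∈ Z, if Odd (y v) then ε v else 0| ≤ -(∑ v ∈ Z, y v) - 2 * k

theorem sum_split {y : V → ℤ} {k : ℕ} (hg : Good R y k) {Z P Q : Finset V}
    (h1 : P ∪ Q = univ) (h2 : P ∩ Q ⊆ Z) :
    ∑ v ∈ Z, y v = ∑ v ∈ Z ∪ P, y v + ∑ v ∈ Z ∪ Q, y v := by
  have h := sum_union_inter (s₁ := Z ∪ P) (s₂ := Z ∪ Q) (f := y)
  have e1 : (Z ∪ P) ∪ (Z ∪ Q) = univ := by
    rw [eq_univ_iff_forall]
    intro v
    have : v ∈ P ∪ Q := by rw [h1]; exact mem_univ v
    rcases mem_union.1 this with h | h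
    · exact mem_union_left _ (mem_union_right _ h)
    · exact mem_union_right _ (mem_union_right _ h)
  have e2 : (Z ∪ P) ∩ (Z ∪ Q) = Z := by
    rw [← union_inter_distrib_left]
    exact union_eq_left.2 h2
  rw [e1, e2, hg.zero, zero_add] at h
  exact h

theorem sum_split_le {y : V → ℤ} {k : ℕ} (hg : Good R y k) {Z P Q : Finset V} (hZ : Cl R Z)
    (hne : Z.Nonempty) (hP : Cl R P) (hQ : Cl R Q) (h1 : P ∪ Q = univ) (h2 : P ∩ Q ⊆ Z) {p q : V}
    (hp : p ∉ Z ∪ P) (hq : q ∉ Z ∪ Q) : ∑ v ∈ Z, y v ≤ -(4 * k : ℤ) := by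
  rw [sum_split hg h1 h2]
  have e1 := hg.le (Z ∪ P) (hne.mono subset_union_left)
    (fun h => hp (by rw [h]; exact mem_univ _)) (cl_union hZ hP)
  have e2 := hg.le (Z ∪ Q) (hne.mono subset_union_left)
    (fun h => hq (by rw [h]; exact mem_univ _)) (cl_union hZ hQ)
  linarith

/-- the sum of indicators -/
theorem sum_ind (Z : Finset V) (a : V) :
    ∑ v ∈ Z, (if v = a then (1 : ℤ) else 0) = if a ∈ Z then 1 else 0 := by
  rw [sum_ite_eq']

include hr ht in
/-- one source -/
theorem src1 {k : ℕ} (hk : 3 ≤ k) (y : V → ℤ) (hg : Good R y k) (a : V) (hcov : ∀ v, R a v)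
    (μ : V → V) (hμ : ∀ v, μ (μ v) = v) (hodd : ∀ v, Odd (y (μ v)) ↔ Odd (y v)) :
    Slots R y k μ := by
  have hsum : ∀ Z : Finset V, ∑ v ∈ Z, (((if v = a then 1 else 0 : ℕ)) : ℤ) =
      if a ∈ Z then 1 else 0 := by
    intro Z
    push_cast
    exact sum_ind Z a
  have haZ : ∀ Z : Finset V, Cl R Z → a ∈ Z → Z = univ := by
    intro Z hZ ha
    rw [eq_univ_iff_forall]
    exact fun v => hZ a ha v (hcov v)
  obtain ⟨ε, h1, h2, h3⟩ := system' hk (J := Empty) (PP := Empty) hr ht y
    (fun v => if v = a then 1 else 0) (fun j => j.elim) (fun j => j.elim) (fun j => j.elim)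
    (by simp) hg.zero (by
      intro Z Q hZ hne
      rcases hne with hne | ⟨q, -⟩
      · rw [hsum, cnt_empty]
        have e1 : #Q = 0 := by
          rw [card_eq_zero, eq_empty_iff_forall_notMem]
          exact fun j => j.elim
        rw [e1]
        by_cases hZu : Z = univ
        · rw [hZu, hg.zero, if_pos (mem_univ a)]
          push_cast
          linarith
        · rw [if_neg (fun h => hZu (haZ Z hZ h))]
          have := hg.le Z hne hZu hZ
          push_cast
          linarith
      · exact q.elim) μ hμ hodd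
  refine ⟨ε, h1, h2, fun Z hne hZu hZ => ?_⟩
  have h := h3 Z ∅ hZ (Or.inl hne)
  rw [hsum, if_neg (fun h => hZu (haZ Z hZ h)), cnt_empty, card_empty] at h
  push_cast at h
  linarith

include hr ht in
/-- two incomparable sources -/
theorem src2' {k : ℕ} (hk : 3 ≤ k) (y : V → ℤ) (hg : Good R y k) (a b : V)
    (hcov : ∀ v, R a v ∨ R b v) (hab : ¬ R a b) (hba : ¬ R b a)
    (μ : V → V) (hμ : ∀ v, μ (μ v) = v) (hodd : ∀ v, Odd (y (μ v)) ↔ Odd (y v)) :
    Slots R y k μ := by
  have hne' : a ≠ b := fun h => hab (h ▸ hr a)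
  have hsum : ∀ Z : Finset V, ∑ v ∈ Z,
      (((if v = a then 1 else 0) + (if v = b then 1 else 0) : ℕ) : ℤ) =
      (if a ∈ Z then 1 else 0) + (if b ∈ Z then 1 else 0) := by
    intro Z
    push_cast
    rw [sum_add_distrib, sum_ind, sum_ind]
  have hun : Ab R a ∪ Ab R b = univ := by
    rw [eq_univ_iff_forall]
    intro v
    rw [mem_union, mem_Ab, mem_Ab]
    exact hcov v
  have hbA : b ∉ Ab R a := fun h => hab (mem_Ab.1 h)
  have haB : a ∉ Ab R b := fun h => hba (mem_Ab.1 h)
  have hZu : ∀ Z : Finset V, Cl R Z → a ∈ Z → b ∈ Z → Z = univ := by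
    intro Z hZ ha hb
    rw [eq_univ_iff_forall]
    intro v
    rcases hcov v with h | h
    · exact hZ a ha v h
    · exact hZ b hb v h
  have hk0 : (0 : ℤ) < k := by exact_mod_cast (by omega : 0 < k)
  have hint : (Ab R a ∩ Ab R b).Nonempty := by
    by_contra hc
    rw [not_nonempty_iff_eq_empty] at hc
    have h := sum_union_inter (s₁ := Ab R a) (s₂ := Ab R b) (f := y)
    rw [hun, hc, hg.zero, sum_empty] at h
    have e1 := hg.le (Ab R a) ⟨a, mem_Ab.2 (hr a)⟩ (fun h => hbA (by rw [h]; exact mem_univ _))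
      (cl_Ab ht a)
    have e2 := hg.le (Ab R b) ⟨b, mem_Ab.2 (hr b)⟩ (fun h => haB (by rw [h]; exact mem_univ _))
      (cl_Ab ht b)
    linarith
  have hj : ∀ Z : Finset V, ∀ Q : Finset Empty, (cnt (fun _ : Unit => Ab R a ∩ Ab R b)
      (fun _ : Unit => (∅ : Finset Empty)) Z Q : ℤ) = if Ab R a ∩ Ab R b ⊆ Z then 1 else 0 := by
    intro Z Q
    rw [cnt_eq]
    simp
  obtain ⟨ε, h1, h2, h3⟩ := system' hk (J := Unit) (PP := Empty) hr ht y
    (fun v => (if v = a then 1 else 0) + (if v = b then 1 else 0))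
    (fun _ => Ab R a ∩ Ab R b) (fun _ => ∅) (fun _ => Or.inl hint)
    (by rw [sum_add_distrib]; simp) hg.zero (by
      intro Z Q hZ hne
      have e1 : #Q = 0 := by
        rw [card_eq_zero, eq_empty_iff_forall_notMem]
        exact fun j => j.elim
      rcases hne with hne | ⟨q, -⟩
      · rw [hj, hsum, e1]
        by_cases hZ1 : Z = univ
        · rw [hZ1, hg.zero, if_pos (mem_univ a), if_pos (mem_univ b), if_pos (subset_univ _)]
          push_cast
          linarith
        have hle := hg.le Z hne hZ1 hZ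
        by_cases hI : Ab R a ∩ Ab R b ⊆ Z
        · rw [if_pos hI]
          by_cases ha : a ∈ Z
          · rw [if_pos ha]
            split_ifs <;> push_cast <;> linarith
          · by_cases hb : b ∈ Z
            · rw [if_neg ha, if_pos hb]
              push_cast
              linarith
            · rw [if_neg ha, if_neg hb]
              have := sum_split_le hg hZ hne (cl_Ab ht a) (cl_Ab ht b) hun hI (p := b) (q := a)
                (by rw [mem_union]; exact fun h => h.elim hb hbA)
                (by rw [mem_union]; exact fun h => h.elim ha haB)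
              push_cast
              linarith
        · rw [if_neg hI]
          split_ifs <;> push_cast <;> linarith
      · exact q.elim) μ hμ hodd
  refine ⟨ε, h1, h2, fun Z hne hZu' hZ => ?_⟩
  have h := h3 Z ∅ hZ (Or.inl hne)
  rw [hj, hsum, card_empty] at h
  by_cases ha : a ∈ Z
  · have hb : b ∉ Z := fun hb => hZu' (hZu Z hZ ha hb)
    rw [if_pos (inter_subset_left.trans (ab_sub hZ ha)), if_pos ha, if_neg hb] at h
    push_cast at h
    linarith
  · by_cases hb : b ∈ Z
    · rw [if_pos (inter_subset_right.trans (ab_sub hZ hb)), if_neg ha, if_pos hb] at h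
      push_cast at h
      linarith
    · rw [if_neg ha, if_neg hb] at h
      split_ifs at h <;> push_cast at h <;> linarith

include hr ht in
/-- at most two sources -/
theorem src2 {k : ℕ} (hk : 3 ≤ k) (y : V → ℤ) (hg : Good R y k) (a b : V)
    (hcov : ∀ v, R a v ∨ R b v)
    (μ : V → V) (hμ : ∀ v, μ (μ v) = v) (hodd : ∀ v, Odd (y (μ v)) ↔ Odd (y v)) :
    Slots R y k μ := by
  by_cases hab : R a b
  · refine src1 hr ht hk y hg a (fun v => ?_) μ hμ hodd
    rcases hcov v with h | h
    · exact h
    · exact ht _ _ _ hab h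
  by_cases hba : R b a
  · refine src1 hr ht hk y hg b (fun v => ?_) μ hμ hodd
    rcases hcov v with h | h
    · exact ht _ _ _ hba h
    · exact h
  exact src2' hr ht hk y hg a b hcov hab hba μ hμ hodd

section three

variable {y : V → ℤ} {k : ℕ} (hk : 3 ≤ k) (hg : Good R y k) (a b c : V)
  (hcov : ∀ v, R a v ∨ R b v ∨ R c v)
  (hab : ¬ R a b) (hba : ¬ R b a) (hac : ¬ R a c) (hca : ¬ R c a) (hbc : ¬ R b c) (hcb : ¬ R c b)

/-- the number of sources in `Z` -/
noncomputable def nn (a b c : V) (Z : Finset V) : ℤ :=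
  (if a ∈ Z then 1 else 0) + (if b ∈ Z then 1 else 0) + (if c ∈ Z then 1 else 0)

theorem nn_univ (a b c : V) : nn a b c univ = 3 := by
  simp [nn]

theorem nn_nonneg (a b c : V) (Z : Finset V) : 0 ≤ nn a b c Z := by
  unfold nn
  split_ifs <;> norm_num

include hcov in
theorem all_univ {Z : Finset V} (hZ : Cl R Z) (ha : a ∈ Z) (hb : b ∈ Z) (hc : c ∈ Z) :
    Z = univ := by
  rw [eq_univ_iff_forall]
  intro v
  rcases hcov v with h | h | h
  · exact hZ a ha v h
  · exact hZ b hb v h
  · exact hZ c hc v h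

include hk hg in
theorem cut0 {Z : Finset V} (hZ : Cl R Z) (hne : Z.Nonempty) :
    ∑ v ∈ Z, y v + 2 * k ≤ 2 * k * nn a b c Z := by
  have hk0 : (0 : ℤ) < k := by exact_mod_cast (by omega : 0 < k)
  by_cases h : Z = univ
  · rw [h, hg.zero, nn_univ]
    linarith
  · have := hg.le Z hne h hZ
    have := nn_nonneg a b c Z
    nlinarith

include hk hg ht hcov hac hbc hca hcb in
/-- `c` is cut off -/
theorem cut1 {Z : Finset V} (hZ : Cl R Z) (hne : Z.Nonempty) (h1 : Ab R a ∩ Ab R c ⊆ Z)
    (h2 : Ab R b ∩ Ab R c ⊆ Z) : ∑ v ∈ Z, y v + 4 * k ≤ 2 * k * nn a b c Z := by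
  have hk0 : (0 : ℤ) < k := by exact_mod_cast (by omega : 0 < k)
  by_cases h : Z = univ
  · rw [h, hg.zero, nn_univ]
    linarith
  have hle := hg.le Z hne h hZ
  by_cases h0 : 1 ≤ nn a b c Z
  · nlinarith
  have ha : a ∉ Z := by
    intro ha
    apply h0
    unfold nn
    rw [if_pos ha]
    split_ifs <;> norm_num
  have hb : b ∉ Z := by
    intro hb
    apply h0
    unfold nn
    rw [if_pos hb]
    split_ifs <;> norm_num
  have hc : c ∉ Z := by
    intro hc
    apply h0
    unfold nn
    rw [if_pos hc]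
    split_ifs <;> norm_num
  have := sum_split_le hg hZ hne (cl_union (cl_Ab ht a) (cl_Ab ht b)) (cl_Ab ht c)
    (by
      rw [eq_univ_iff_forall]
      intro v
      rw [mem_union, mem_union, mem_Ab, mem_Ab, mem_Ab, or_assoc]
      exact hcov v)
    (by
      rw [union_inter_distrib_right]
      exact union_subset h1 h2) (p := c) (q := a)
    (by
      rw [mem_union, mem_union, mem_Ab, mem_Ab]
      exact fun h => h.elim hc fun h => h.elim hac hbc)
    (by
      rw [mem_union, mem_Ab]
      exact fun h => h.elim ha hca)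
  have := nn_nonneg a b c Z
  nlinarith

include hk hg ht hcov hab hba hac hbc hca hcb in
/-- all sources are cut off -/
theorem cut3 {Z : Finset V} (hZ : Cl R Z) (hne : Z.Nonempty) (h1 : Ab R a ∩ Ab R c ⊆ Z)
    (h2 : Ab R b ∩ Ab R c ⊆ Z) (h3 : Ab R a ∩ Ab R b ⊆ Z) :
    ∑ v ∈ Z, y v + 6 * k ≤ 2 * k * nn a b c Z := by
  have hk0 : (0 : ℤ) < k := by exact_mod_cast (by omega : 0 < k)
  by_cases h : Z = univ
  · rw [h, hg.zero, nn_univ]
    linarith
  have hle := hg.le Z hne h hZ
  have hun : ∀ v, v ∈ Ab R a ∨ v ∈ Ab R b ∨ v ∈ Ab R c := by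
    intro v
    rw [mem_Ab, mem_Ab, mem_Ab]
    exact hcov v
  -- two sources outside
  have key : ∀ Y : Finset V, Cl R Y → Z ⊆ Y →
      ((a ∉ Y ∧ b ∉ Y) ∨ (a ∉ Y ∧ c ∉ Y) ∨ (b ∉ Y ∧ c ∉ Y)) → ∑ v ∈ Y, y v ≤ -(4 * k : ℤ) := by
    intro Y hY hZY hcase
    rcases hcase with ⟨p, q⟩ | ⟨p, q⟩ | ⟨p, q⟩
    · refine sum_split_le hg hY (hne.mono hZY) (cl_union (cl_Ab ht a) (cl_Ab ht c)) (cl_Ab ht b)
        ?_ ?_ (p := b) (q := a) ?_ ?_
      · rw [eq_univ_iff_forall]
        intro v
        have := hun v
        simp only [mem_union]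
        tauto
      · rw [union_inter_distrib_right]
        refine union_subset (h3.trans hZY) ?_
        rw [inter_comm]
        exact h2.trans hZY
      · rw [mem_union, mem_union, mem_Ab, mem_Ab]
        exact fun h => h.elim q fun h => h.elim hab hcb
      · rw [mem_union, mem_Ab]
        exact fun h => h.elim p hba
    · refine sum_split_le hg hY (hne.mono hZY) (cl_union (cl_Ab ht a) (cl_Ab ht b)) (cl_Ab ht c)
        ?_ ?_ (p := c) (q := a) ?_ ?_
      · rw [eq_univ_iff_forall]
        intro v
        have := hun v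
        simp only [mem_union]
        tauto
      · rw [union_inter_distrib_right]
        exact union_subset (h1.trans hZY) (h2.trans hZY)
      · rw [mem_union, mem_union, mem_Ab, mem_Ab]
        exact fun h => h.elim q fun h => h.elim hac hbc
      · rw [mem_union, mem_Ab]
        exact fun h => h.elim p hca
    · refine sum_split_le hg hY (hne.mono hZY) (cl_union (cl_Ab ht a) (cl_Ab ht b)) (cl_Ab ht c)
        ?_ ?_ (p := c) (q := b) ?_ ?_
      · rw [eq_univ_iff_forall]
        intro v
        have := hun v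
        simp only [mem_union]
        tauto
      · rw [union_inter_distrib_right]
        exact union_subset (h1.trans hZY) (h2.trans hZY)
      · rw [mem_union, mem_union, mem_Ab, mem_Ab]
        exact fun h => h.elim q fun h => h.elim hac hbc
      · rw [mem_union, mem_Ab]
        exact fun h => h.elim p hcb
  by_cases h0 : 2 ≤ nn a b c Z
  · nlinarith
  by_cases ha : a ∈ Z
  · have hb : b ∉ Z := by
      intro hb
      apply h0
      unfold nn
      rw [if_pos ha, if_pos hb]
      split_ifs <;> norm_num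
    have hc : c ∉ Z := by
      intro hc
      apply h0
      unfold nn
      rw [if_pos ha, if_pos hc]
      split_ifs <;> norm_num
    have := key Z hZ subset_rfl (Or.inr (Or.inr ⟨hb, hc⟩))
    unfold nn
    rw [if_pos ha, if_neg hb, if_neg hc]
    linarith
  by_cases hb : b ∈ Z
  · have hc : c ∉ Z := by
      intro hc
      apply h0
      unfold nn
      rw [if_pos hb, if_pos hc]
      split_ifs <;> norm_num
    have := key Z hZ subset_rfl (Or.inr (Or.inl ⟨ha, hc⟩))
    unfold nn
    rw [if_neg ha, if_pos hb, if_neg hc]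
    linarith
  by_cases hc : c ∈ Z
  · have := key Z hZ subset_rfl (Or.inl ⟨ha, hb⟩)
    unfold nn
    rw [if_neg ha, if_neg hb, if_pos hc]
    linarith
  -- no source in `Z`
  have e1 := sum_split hg (Z := Z) (P := Ab R a ∪ Ab R b) (Q := Ab R c) (by
    rw [eq_univ_iff_forall]
    intro v
    have := hun v
    simp only [mem_union]
    tauto) (by
    rw [union_inter_distrib_right]
    exact union_subset h1 h2)
  have e2 := hg.le (Z ∪ (Ab R a ∪ Ab R b)) (hne.mono subset_union_left) (by
    intro h
    have : c ∈ Z ∪ (Ab R a ∪ Ab R b) := by rw [h]; exact mem_univ c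
    rw [mem_union, mem_union, mem_Ab, mem_Ab] at this
    exact this.elim hc fun h => h.elim hac hbc)
    (cl_union hZ (cl_union (cl_Ab ht a) (cl_Ab ht b)))
  have e3 := key (Z ∪ Ab R c) (cl_union hZ (cl_Ab ht c)) subset_union_left (Or.inl (by
    rw [mem_union, mem_union, mem_Ab, mem_Ab]
    exact ⟨fun h => h.elim ha hca, fun h => h.elim hb hcb⟩))
  have := nn_nonneg a b c Z
  nlinarith

include hk hg hr ht hcov in
/-- two sources are separated from the third one -/
theorem int_nonempty (hac : ¬ R a c) (hca : ¬ R c a) (hbc : ¬ R b c) :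
    (Ab R a ∩ Ab R c).Nonempty ∨ (Ab R b ∩ Ab R c).Nonempty := by
  have hk0 : (0 : ℤ) < k := by exact_mod_cast (by omega : 0 < k)
  by_contra hcon
  push Not at hcon
  obtain ⟨h1, h2⟩ := hcon
  have h := sum_union_inter (s₁ := Ab R a ∪ Ab R b) (s₂ := Ab R c) (f := y)
  have e0 : (Ab R a ∪ Ab R b) ∪ Ab R c = univ := by
    rw [eq_univ_iff_forall]
    intro v
    rw [mem_union, mem_union, mem_Ab, mem_Ab, mem_Ab, or_assoc]
    exact hcov v
  have e0' : (Ab R a ∪ Ab R b) ∩ Ab R c = ∅ := by
    rw [union_inter_distrib_right, h1, h2, empty_union]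
  rw [e0, e0', hg.zero, sum_empty] at h
  have e1 := hg.le (Ab R a ∪ Ab R b) ⟨a, mem_union_left _ (mem_Ab.2 (hr a))⟩ (fun h => by
    have : c ∈ Ab R a ∪ Ab R b := by rw [h]; exact mem_univ _
    rw [mem_union, mem_Ab, mem_Ab] at this
    exact this.elim hac hbc) (cl_union (cl_Ab ht a) (cl_Ab ht b))
  have e2 := hg.le (Ab R c) ⟨c, mem_Ab.2 (hr c)⟩ (fun h => by
    have : a ∈ Ab R c := by rw [h]; exact mem_univ _
    exact hca (mem_Ab.1 this)) (cl_Ab ht c)
  linarith

theorem sum_nn (a b c : V) (Z : Finset V) : ∑ v ∈ Z,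
    (((if v = a then 1 else 0) + (if v = b then 1 else 0) + (if v = c then 1 else 0) : ℕ) : ℤ) =
    nn a b c Z := by
  push_cast
  rw [sum_add_distrib, sum_add_distrib, sum_ind, sum_ind, sum_ind]
  rfl

theorem nn_rot (a b c : V) (Z : Finset V) : nn b c a Z = nn a b c Z := by
  unfold nn
  ring

theorem nn_swap (a b c : V) (Z : Finset V) : nn a c b Z = nn a b c Z := by
  unfold nn
  ring

end three

include hr ht in
/-- three sources, `a` and `b` are not connected -/
theorem src3I {y : V → ℤ} {k : ℕ} (hk : 3 ≤ k) (hg : Good R y k) (a b c : V)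
    (hcov : ∀ v, R a v ∨ R b v ∨ R c v) (hab : ¬ R a b) (hba : ¬ R b a) (hac : ¬ R a c)
    (hca : ¬ R c a) (hbc : ¬ R b c) (hcb : ¬ R c b) (h0 : Ab R a ∩ Ab R b = ∅)
    (μ : V → V) (hμ : ∀ v, μ (μ v) = v) (hodd : ∀ v, Odd (y (μ v)) ↔ Odd (y v)) :
    Slots R y k μ := by
  have hk0 : (0 : ℤ) < k := by exact_mod_cast (by omega : 0 < k)
  have hcov1 : ∀ v, R b v ∨ R c v ∨ R a v := fun v => by
    have := hcov v
    tauto
  have hcov2 : ∀ v, R c v ∨ R a v ∨ R b v := fun v => by
    have := hcov v
    tauto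
  have h1 : (Ab R a ∩ Ab R c).Nonempty := by
    rcases int_nonempty hr ht hk hg b c a hcov1 hba hab hca with h | h
    · rw [inter_comm, h0] at h
      exact absurd h (by simp)
    · rwa [inter_comm] at h
  have h2 : (Ab R b ∩ Ab R c).Nonempty := by
    rcases int_nonempty hr ht hk hg c a b hcov2 hcb hbc hab with h | h
    · rwa [inter_comm] at h
    · rw [h0] at h
      exact absurd h (by simp)
  have hj : ∀ Z : Finset V, ∀ Q : Finset Empty, (cnt (fun i : Bool => if i = true then
      Ab R a ∩ Ab R c else Ab R b ∩ Ab R c) (fun _ : Bool => (∅ : Finset Empty)) Z Q : ℤ) =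
      (if Ab R a ∩ Ab R c ⊆ Z then 1 else 0) + (if Ab R b ∩ Ab R c ⊆ Z then 1 else 0) := by
    intro Z Q
    rw [cnt_eq, Fintype.sum_bool]
    simp
  obtain ⟨ε, g1, g2, g3⟩ := system' hk (J := Bool) (PP := Empty) hr ht y
    (fun v => (if v = a then 1 else 0) + (if v = b then 1 else 0) + (if v = c then 1 else 0))
    (fun i : Bool => if i = true then Ab R a ∩ Ab R c else Ab R b ∩ Ab R c)
    (fun _ => (∅ : Finset Empty)) (fun i => by
      cases i
      · exact Or.inl h2
      · exact Or.inl h1)
    (by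
      rw [sum_add_distrib, sum_add_distrib]
      simp) hg.zero (by
      intro Z Q hZ hne
      have e1 : #Q = 0 := by
        rw [card_eq_zero, eq_empty_iff_forall_notMem]
        exact fun j => j.elim
      rcases hne with hne | ⟨q, -⟩
      · rw [hj, sum_nn, e1]
        by_cases c1 : Ab R a ∩ Ab R c ⊆ Z <;> by_cases c2 : Ab R b ∩ Ab R c ⊆ Z
        · have := cut3 ht hk hg a b c hcov hab hba hac hca hbc hcb hZ hne c1 c2
            (by rw [h0]; exact empty_subset _)
          rw [if_pos c1, if_pos c2]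
          push_cast
          linarith
        · have := cut1 ht hk hg b c a hcov1 hba hab hca hac hZ hne
            (by rw [inter_comm, h0]; exact empty_subset _) (by rw [inter_comm]; exact c1)
          rw [nn_rot] at this
          rw [if_pos c1, if_neg c2]
          push_cast
          linarith
        · have := cut1 ht hk hg c a b hcov2 hcb hbc hab hba hZ hne
            (by rw [inter_comm]; exact c2) (by rw [h0]; exact empty_subset _)
          rw [nn_rot, nn_rot] at this
          rw [if_neg c1, if_pos c2]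
          push_cast
          linarith
        · have := cut0 hk hg a b c hZ hne
          rw [if_neg c1, if_neg c2]
          push_cast
          linarith
      · exact q.elim) μ hμ hodd
  refine ⟨ε, g1, g2, fun Z hne hZu hZ => ?_⟩
  have h := g3 Z ∅ hZ (Or.inl hne)
  rw [hj, sum_nn, card_empty] at h
  have hle : nn a b c Z ≤ (if Ab R a ∩ Ab R c ⊆ Z then 1 else 0) +
      (if Ab R b ∩ Ab R c ⊆ Z then 1 else 0) := by
    unfold nn
    by_cases ha : a ∈ Z
    · rw [if_pos ha, if_pos (inter_subset_left.trans (ab_sub hZ ha))]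
      by_cases hb : b ∈ Z
      · rw [if_pos hb, if_pos (inter_subset_left.trans (ab_sub hZ hb)),
          if_neg (fun hc => hZu (all_univ a b c hcov hZ ha hb hc))]
        norm_num
      · rw [if_neg hb]
        by_cases hc : c ∈ Z
        · rw [if_pos hc, if_pos (inter_subset_right.trans (ab_sub hZ hc))]
          norm_num
        · rw [if_neg hc]
          split_ifs <;> norm_num
    · rw [if_neg ha]
      by_cases hc : c ∈ Z
      · rw [if_pos hc, if_pos (inter_subset_right.trans (ab_sub hZ hc)),
          if_pos (inter_subset_right.trans (ab_sub hZ hc))]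
        split_ifs <;> norm_num
      · rw [if_neg hc]
        by_cases hb : b ∈ Z
        · rw [if_pos hb, if_pos (inter_subset_left.trans (ab_sub hZ hb))]
          split_ifs <;> norm_num
        · rw [if_neg hb]
          split_ifs <;> norm_num
  push_cast at h
  nlinarith

include hr ht in
/-- three sources, all pairs are connected -/
theorem src3II {y : V → ℤ} {k : ℕ} (hk : 3 ≤ k) (hg : Good R y k) (a b c : V)
    (hcov : ∀ v, R a v ∨ R b v ∨ R c v) (hab : ¬ R a b) (hba : ¬ R b a) (hac : ¬ R a c)
    (hca : ¬ R c a) (hbc : ¬ R b c) (hcb : ¬ R c b) (h1 : (Ab R a ∩ Ab R b).Nonempty)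
    (h2 : (Ab R a ∩ Ab R c).Nonempty) (h3 : (Ab R b ∩ Ab R c).Nonempty)
    (μ : V → V) (hμ : ∀ v, μ (μ v) = v) (hodd : ∀ v, Odd (y (μ v)) ↔ Odd (y v)) :
    Slots R y k μ := by
  have hk0 : (0 : ℤ) < k := by exact_mod_cast (by omega : 0 < k)
  have hcov1 : ∀ v, R b v ∨ R c v ∨ R a v := fun v => by
    have := hcov v
    tauto
  have hcov2 : ∀ v, R c v ∨ R a v ∨ R b v := fun v => by
    have := hcov v
    tauto
  let Hc : Fin 3 → Finset V := fun i => if i = 0 then Ab R a ∩ Ab R b else
    if i = 1 then Ab R a ∩ Ab R c else Ab R b ∩ Ab R c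
  have hj0 : ∀ Z : Finset V, (cnt Hc (fun _ : Fin 3 => ({()} : Finset Unit)) Z ∅ : ℤ) = 0 := by
    intro Z
    rw [cnt_eq]
    simp
  have hj1 : ∀ Z : Finset V, (cnt Hc (fun _ : Fin 3 => ({()} : Finset Unit)) Z {()} : ℤ) =
      (if Ab R a ∩ Ab R b ⊆ Z then 1 else 0) + (if Ab R a ∩ Ab R c ⊆ Z then 1 else 0) +
      (if Ab R b ∩ Ab R c ⊆ Z then 1 else 0) := by
    intro Z
    rw [cnt_eq, Fin.sum_univ_three]
    simp [Hc]
  have hQ : ∀ Q : Finset Unit, Q = ∅ ∨ Q = {()} := by
    intro Q
    rcases Q.eq_empty_or_nonempty with h | ⟨q, hq⟩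
    · exact Or.inl h
    · right
      ext x
      simp [hq]
  obtain ⟨ε, g1, g2, g3⟩ := system' hk (J := Fin 3) (PP := Unit) hr ht y
    (fun v => (if v = a then 1 else 0) + (if v = b then 1 else 0) + (if v = c then 1 else 0))
    Hc (fun _ => {()}) (fun i => Or.inr ⟨(), mem_singleton_self _⟩)
    (by
      rw [sum_add_distrib, sum_add_distrib]
      simp) hg.zero (by
      intro Z Q hZ hne
      rw [sum_nn]
      rcases hQ Q with rfl | rfl
      · rcases hne with hne | hne
        · have := cut0 hk hg a b c hZ hne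
          rw [hj0, card_empty]
          push_cast
          linarith
        · exact absurd hne (by simp)
      · rw [hj1, card_singleton]
        rcases Z.eq_empty_or_nonempty with h0 | hne
        · subst h0
          have n0 : ∀ S : Finset V, S.Nonempty → ¬ S ⊆ ∅ := by
            intro S hS h
            rw [subset_empty] at h
            rw [h] at hS
            exact absurd hS (by simp)
          rw [if_neg (n0 _ h1), if_neg (n0 _ h2), if_neg (n0 _ h3), sum_empty]
          simp [nn]
        have q0 := cut0 hk hg a b c hZ hne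
        by_cases c1 : Ab R a ∩ Ab R b ⊆ Z <;> by_cases c2 : Ab R a ∩ Ab R c ⊆ Z <;>
          by_cases c3 : Ab R b ∩ Ab R c ⊆ Z
        · have := cut3 ht hk hg a b c hcov hab hba hac hca hbc hcb hZ hne c2 c3 c1
          rw [if_pos c1, if_pos c2, if_pos c3]
          push_cast
          linarith
        · have := cut1 ht hk hg b c a hcov1 hba hab hca hac hZ hne
            (by rw [inter_comm]; exact c1) (by rw [inter_comm]; exact c2)
          rw [nn_rot] at this
          rw [if_pos c1, if_pos c2, if_neg c3]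
          push_cast
          linarith
        · have := cut1 ht hk hg c a b hcov2 hcb hbc hab hba hZ hne
            (by rw [inter_comm]; exact c3) c1
          rw [nn_rot, nn_rot] at this
          rw [if_pos c1, if_neg c2, if_pos c3]
          push_cast
          linarith
        · rw [if_pos c1, if_neg c2, if_neg c3]
          push_cast
          linarith
        · have := cut1 ht hk hg a b c hcov hac hca hbc hcb hZ hne c2 c3
          rw [if_neg c1, if_pos c2, if_pos c3]
          push_cast
          linarith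
        · rw [if_neg c1, if_pos c2, if_neg c3]
          push_cast
          linarith
        · rw [if_neg c1, if_neg c2, if_pos c3]
          push_cast
          linarith
        · rw [if_neg c1, if_neg c2, if_neg c3]
          push_cast
          linarith) μ hμ hodd
  refine ⟨ε, g1, g2, fun Z hne hZu hZ => ?_⟩
  have k0 := g3 Z ∅ hZ (Or.inl hne)
  have k1 := g3 Z {()} hZ (Or.inl hne)
  rw [hj0, sum_nn, card_empty] at k0
  rw [hj1, sum_nn, card_singleton] at k1
  by_cases hn : nn a b c Z ≤ 0
  · push_cast at k0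
    nlinarith
  have hle : nn a b c Z + 1 ≤ (if Ab R a ∩ Ab R b ⊆ Z then 1 else 0) +
      (if Ab R a ∩ Ab R c ⊆ Z then 1 else 0) + (if Ab R b ∩ Ab R c ⊆ Z then 1 else 0) := by
    by_cases ha : a ∈ Z
    · have s1 : Ab R a ∩ Ab R b ⊆ Z := inter_subset_left.trans (ab_sub hZ ha)
      have s2 : Ab R a ∩ Ab R c ⊆ Z := inter_subset_left.trans (ab_sub hZ ha)
      rw [if_pos s1, if_pos s2]
      by_cases hb : b ∈ Z
      · have hc : c ∉ Z := fun hc => hZu (all_univ a b c hcov hZ ha hb hc)
        unfold nn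
        rw [if_pos ha, if_pos hb, if_neg hc, if_pos (inter_subset_left.trans (ab_sub hZ hb))]
        norm_num
      · unfold nn
        by_cases hc : c ∈ Z
        · rw [if_pos ha, if_neg hb, if_pos hc, if_pos (inter_subset_right.trans (ab_sub hZ hc))]
          norm_num
        · rw [if_pos ha, if_neg hb, if_neg hc]
          split_ifs <;> norm_num
    · by_cases hb : b ∈ Z
      · rw [if_pos (inter_subset_right.trans (ab_sub hZ hb)),
          if_pos (inter_subset_left.trans (ab_sub hZ hb))]
        unfold nn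
        by_cases hc : c ∈ Z
        · rw [if_neg ha, if_pos hb, if_pos hc, if_pos (inter_subset_right.trans (ab_sub hZ hc))]
          norm_num
        · rw [if_neg ha, if_pos hb, if_neg hc]
          split_ifs <;> norm_num
      · by_cases hc : c ∈ Z
        · rw [if_pos (inter_subset_right.trans (ab_sub hZ hc)),
            if_pos (inter_subset_right.trans (ab_sub hZ hc))]
          unfold nn
          rw [if_neg ha, if_neg hb, if_pos hc]
          split_ifs <;> norm_num
        · exfalso
          apply hn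
          unfold nn
          rw [if_neg ha, if_neg hb, if_neg hc]
          norm_num
  push_cast at k1
  nlinarith

include hr ht in
/-- at most three sources -/
theorem src3 {y : V → ℤ} {k : ℕ} (hk : 3 ≤ k) (hg : Good R y k) (a b c : V)
    (hcov : ∀ v, R a v ∨ R b v ∨ R c v)
    (μ : V → V) (hμ : ∀ v, μ (μ v) = v) (hodd : ∀ v, Odd (y (μ v)) ↔ Odd (y v)) :
    Slots R y k μ := by
  have red : ∀ p q r : V, (∀ v, R p v ∨ R q v ∨ R r v) → R p q → Slots R y k μ := by
    intro p q r h hpq
    refine src2 hr ht hk y hg p r (fun v => ?_) μ hμ hodd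
    rcases h v with h | h | h
    · exact Or.inl h
    · exact Or.inl (ht _ _ _ hpq h)
    · exact Or.inr h
  by_cases hab : R a b
  · exact red a b c hcov hab
  by_cases hba : R b a
  · exact red b a c (fun v => by have := hcov v; tauto) hba
  by_cases hac : R a c
  · exact red a c b (fun v => by have := hcov v; tauto) hac
  by_cases hca : R c a
  · exact red c a b (fun v => by have := hcov v; tauto) hca
  by_cases hbc : R b c
  · exact red b c a (fun v => by have := hcov v; tauto) hbc
  by_cases hcb : R c b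
  · exact red c b a (fun v => by have := hcov v; tauto) hcb
  rcases (Ab R a ∩ Ab R b).eq_empty_or_nonempty with h1 | h1
  · exact src3I hr ht hk hg a b c hcov hab hba hac hca hbc hcb h1 μ hμ hodd
  rcases (Ab R a ∩ Ab R c).eq_empty_or_nonempty with h2 | h2
  · exact src3I hr ht hk hg a c b (fun v => by have := hcov v; tauto) hac hca hab hba hcb hbc h2
      μ hμ hodd
  rcases (Ab R b ∩ Ab R c).eq_empty_or_nonempty with h3 | h3
  · exact src3I hr ht hk hg b c a (fun v => by have := hcov v; tauto) hbc hcb hba hab hca hac h3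
      μ hμ hodd
  exact src3II hr ht hk hg a b c hcov hab hba hac hca hbc hcb h1 h2 h3 μ hμ hodd

end TS9e
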